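import Mathlib

set_option autoImplicit false

/-!
# UC86/Newton: Newton's inequalities for real-rooted polynomials with positive coefficients
-/

open Finset Polynomial

namespace Pool.UC86

theorem newton_step {i j a A B C D : ℝ} (hi : 0 ≤ i) (hj : 0 ≤ j) (ha : 0 ≤ a)
    (h1 : (i + 1) * (j + 2) * (A * C) ≤ i * (j + 1) * B ^ 2)
    (h2 : (i + 2) * (j + 1) * (B * D) ≤ (i + 1) * j * C ^ 2)
    (h3 : (i + 2) * (j + 2) * (A * D) ≤ i * j * (B * C)) :
    (i + 2) * (j + 2) * ((A + a * B) * (C + a * D)) ≤ (i + 1) * (j + 1) * (B + a * C) ^ 2 := by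
  have hpos : 0 < (i + 1) * (j + 1) := by positivity
  refine le_of_mul_le_mul_left ?_ hpos
  have e1 := mul_le_mul_of_nonneg_left h1 (show 0 ≤ (i + 2) * (j + 1) by positivity)
  have e2 := mul_le_mul_of_nonneg_left h2 (show 0 ≤ a ^ 2 * ((i + 1) * (j + 2)) by positivity)
  have e3 := mul_le_mul_of_nonneg_left h3 (show 0 ≤ a * ((i + 1) * (j + 1)) by positivity)
  have e4 := sq_nonneg ((j + 1) * B - a * ((i + 1) * C))
  nlinarith [e1, e2, e3, e4]

/-- Positivity and Newton's inequalities of order `n`. -/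
def New (n : ℕ) (f : ℝ[X]) : Prop :=
  (∀ k, k ≤ n → 0 < f.coeff k) ∧ (∀ k, n < k → f.coeff k = 0) ∧
  ∀ i j : ℕ, i + j + 2 = n → ((i : ℝ) + 2) * ((j : ℝ) + 2) * (f.coeff i * f.coeff (i + 2)) ≤
    ((i : ℝ) + 1) * ((j : ℝ) + 1) * f.coeff (i + 1) ^ 2

theorem New.nonneg {n : ℕ} {f : ℝ[X]} (h : New n f) (k : ℕ) : 0 ≤ f.coeff k := by
  by_cases hk : k ≤ n
  · exact (h.1 k hk).le
  · exact (h.2.1 k (not_le.1 hk)).ge

theorem New.step {n : ℕ} {f : ℝ[X]} (h : New n f) {a : ℝ} (ha : 0 < a) :
    New (n + 1) ((X + C a) * f) := by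
  have c0 : ((X + C a) * f).coeff 0 = a * f.coeff 0 := by
    rw [add_mul, coeff_add, coeff_X_mul_zero, coeff_C_mul, zero_add]
  have cs : ∀ k, ((X + C a) * f).coeff (k + 1) = f.coeff k + a * f.coeff (k + 1) := by
    intro k
    rw [add_mul, coeff_add, coeff_X_mul, coeff_C_mul]
  refine ⟨fun k hk => ?_, fun k hk => ?_, fun i j hij => ?_⟩
  · rcases k with _ | k
    · rw [c0]
      exact mul_pos ha (h.1 0 (Nat.zero_le _))
    · rw [cs]
      have h1 := h.1 k (by omega)
      have h2 := h.nonneg (k + 1)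
      positivity
  · rcases k with _ | k
    · omega
    · rw [cs, h.2.1 k (by omega), h.2.1 (k + 1) (by omega)]
      ring
  · -- the two inequalities for `f`
    have g2 : ((i : ℝ) + 2) * ((j : ℝ) + 1) * (f.coeff i * f.coeff (i + 2)) ≤
        ((i : ℝ) + 1) * (j : ℝ) * f.coeff (i + 1) ^ 2 := by
      rcases j with _ | j
      · rw [h.2.1 (i + 2) (by omega)]
        simp
      · have := h.2.2 i j (by omega)
        push_cast
        have e : ((i : ℝ) + 2) * ((j : ℝ) + 1 + 1) = ((i : ℝ) + 2) * ((j : ℝ) + 2) := by ring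
        rw [e]
        exact this
    rcases i with _ | i
    · rw [c0, cs, cs]
      have h1 := newton_step (i := 0) (j := j) (a := a) (A := 0) (B := f.coeff 0)
        (C := f.coeff 1) (D := f.coeff 2) le_rfl (Nat.cast_nonneg _) ha.le (by simp)
        (by simpa using g2) (by simp)
      simpa using h1
    · rw [cs, cs, cs]
      have g1 : ((i : ℝ) + 1 + 1) * ((j : ℝ) + 2) * (f.coeff i * f.coeff (i + 2)) ≤
          ((i : ℝ) + 1) * ((j : ℝ) + 1) * f.coeff (i + 1) ^ 2 := by
        have := h.2.2 i j (by omega)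
        have e : ((i : ℝ) + 1 + 1) * ((j : ℝ) + 2) = ((i : ℝ) + 2) * ((j : ℝ) + 2) := by ring
        rw [e]
        exact this
      have g2' : ((i : ℝ) + 1 + 2) * ((j : ℝ) + 1) * (f.coeff (i + 1) * f.coeff (i + 3)) ≤
          ((i : ℝ) + 1 + 1) * (j : ℝ) * f.coeff (i + 2) ^ 2 := by
        push_cast at g2
        exact g2
      have hB := h.1 (i + 1) (by omega)
      have hC := h.1 (i + 2) (by omega)
      have g3 : ((i : ℝ) + 1 + 2) * ((j : ℝ) + 2) * (f.coeff i * f.coeff (i + 3)) ≤
          ((i : ℝ) + 1) * (j : ℝ) * (f.coeff (i + 1) * f.coeff (i + 2)) := by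
        have hA := h.nonneg i
        have hD := h.nonneg (i + 3)
        have hpos : 0 < ((i : ℝ) + 1 + 1) * ((j : ℝ) + 1) * (f.coeff (i + 1) * f.coeff (i + 2)) := by
          positivity
        refine le_of_mul_le_mul_left ?_ hpos
        have := mul_le_mul g1 g2' (by positivity) (by positivity)
        calc ((i : ℝ) + 1 + 1) * ((j : ℝ) + 1) * (f.coeff (i + 1) * f.coeff (i + 2)) *
            (((i : ℝ) + 1 + 2) * ((j : ℝ) + 2) * (f.coeff i * f.coeff (i + 3)))
            = ((i : ℝ) + 1 + 1) * ((j : ℝ) + 2) * (f.coeff i * f.coeff (i + 2)) *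
              (((i : ℝ) + 1 + 2) * ((j : ℝ) + 1) * (f.coeff (i + 1) * f.coeff (i + 3))) := by ring
          _ ≤ ((i : ℝ) + 1) * ((j : ℝ) + 1) * f.coeff (i + 1) ^ 2 *
              (((i : ℝ) + 1 + 1) * (j : ℝ) * f.coeff (i + 2) ^ 2) := this
          _ = _ := by ring
      have h1 := newton_step (i := (i : ℝ) + 1) (j := j) (a := a) (A := f.coeff i)
        (B := f.coeff (i + 1)) (C := f.coeff (i + 2)) (D := f.coeff (i + 3)) (by positivity)
        (Nat.cast_nonneg _) ha.le g1 g2' g3
      push_cast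
      exact h1

theorem New.prod (s : Multiset ℝ) (hs : ∀ a ∈ s, 0 < a) :
    New (Multiset.card s) ((s.map (fun a => X + C a)).prod) := by
  induction s using Multiset.induction_on with
  | empty =>
    rw [Multiset.map_zero, Multiset.prod_zero, Multiset.card_zero]
    refine ⟨fun k hk => ?_, fun k hk => ?_, fun i j hij => by omega⟩
    · have : k = 0 := by omega
      rw [this]
      simp
    · rw [coeff_one, if_neg (by omega)]
  | cons a s ih =>
    rw [Multiset.map_cons, Multiset.prod_cons, Multiset.card_cons]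
    exact (ih fun b hb => hs b (Multiset.mem_cons_of_mem hb)).step
      (hs a (Multiset.mem_cons_self a s))

/-- **Newton's inequalities** for a real-rooted polynomial with nonnegative coefficients and
positive constant term. -/
theorem newton {f : ℝ[X]} (hf : f.Splits) (hnn : ∀ k, 0 ≤ f.coeff k) (h0 : 0 < f.coeff 0) :
    ∀ i j : ℕ, i + j + 2 = f.natDegree →
      ((i : ℝ) + 2) * ((j : ℝ) + 2) * (f.coeff i * f.coeff (i + 2)) ≤
        ((i : ℝ) + 1) * ((j : ℝ) + 1) * f.coeff (i + 1) ^ 2 := by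
  have hne : f ≠ 0 := by
    rintro rfl
    simp at h0
  have hroot : ∀ r ∈ f.roots, r < 0 := by
    intro r hr
    by_contra hcon
    push Not at hcon
    have h1 : f.eval r = 0 := (mem_roots hne).1 hr
    rw [eval_eq_sum_range] at h1
    have h2 : 0 < ∑ i ∈ range (f.natDegree + 1), f.coeff i * r ^ i := by
      refine Finset.sum_pos' (fun i _ => mul_nonneg (hnn i) (pow_nonneg hcon _))
        ⟨0, Finset.mem_range.2 (Nat.succ_pos _), by simpa using h0⟩
    linarith
  have hprod := hf.eq_prod_roots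
  set s : Multiset ℝ := f.roots.map (fun r => -r) with hs
  have h1 : (f.roots.map (fun r => X - C r)).prod = (s.map (fun a => X + C a)).prod := by
    rw [hs, Multiset.map_map]
    congr 1
    refine Multiset.map_congr rfl fun r _ => ?_
    simp [sub_eq_add_neg]
  have hN := New.prod s (fun a ha => by
    rw [hs, Multiset.mem_map] at ha
    obtain ⟨r, hr, rfl⟩ := ha
    have := hroot r hr
    linarith)
  have hcard : Multiset.card s = f.natDegree := by
    rw [hs, Multiset.card_map, hf.natDegree_eq_card_roots]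
  rw [h1] at hprod
  intro i j hij
  have h2 := hN.2.2 i j (by rw [hcard]; exact hij)
  have h3 : ∀ k, f.coeff k = f.leadingCoeff * ((s.map (fun a => X + C a)).prod).coeff k := by
    intro k
    conv_lhs => rw [hprod]
    rw [coeff_C_mul]
  rw [h3 i, h3 (i + 1), h3 (i + 2)]
  have h4 := mul_le_mul_of_nonneg_left h2 (sq_nonneg f.leadingCoeff)
  linarith

end Pool.UC86
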