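import Pool.Agent.UC86.Pos
import Pool.Agent.UC86.Newton

set_option autoImplicit false

/-!
# UC86/Fam: posets with many components
-/

open Finset Polynomial Pool.GT34 Pool.DU31

namespace Pool.UC86

/-- The number of linear extensions with exactly `k` descents. -/
noncomputable def wN {α : Type} [PartialOrder α] {n : ℕ} (f : α ≃ Fin n) (k : ℕ) : ℕ :=
  Nat.card {σ : Fin n ≃ α // (∀ i j : Fin n, σ i < σ j → i < j) ∧
    Nat.card {i : Fin n // ∃ h : i.val + 1 < n, f (σ ⟨i.val + 1, h⟩) < f (σ i)} = k}

/-- Natural labellings. -/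
def Nat' {α : Type} [PartialOrder α] {n : ℕ} (f : α ≃ Fin n) : Prop := ∀ x y : α, x < y → f x < f y

theorem UlcN_mono_one {n d : ℕ} {w : ℕ → ℕ} (h : UlcN n (d + 1) w) : UlcN n d w := by
  refine ⟨fun k hk => h.1 k (by omega), fun k l hkl => ?_⟩
  rcases l with _ | l
  · rw [h.1 (k + 2) (by omega)]
    simp
  · have h1 := h.2 k l (by omega)
    have hpos : 0 < l + 2 := by omega
    refine Nat.le_of_mul_le_mul_left ?_ hpos
    calc (l + 2) * ((k + 2) * (l + 1 + 2) * (w k * w (k + 2)))
        = (l + 3) * ((k + 2) * (l + 2) * (w k * w (k + 2))) := by ring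
      _ ≤ (l + 3) * ((k + 1) * (l + 1) * w (k + 1) ^ 2) := Nat.mul_le_mul_left _ h1
      _ = ((l + 3) * (l + 1)) * ((k + 1) * w (k + 1) ^ 2) := by ring
      _ ≤ ((l + 2) * (l + 2)) * ((k + 1) * w (k + 1) ^ 2) := by
          apply Nat.mul_le_mul_right
          nlinarith
      _ = (l + 2) * ((k + 1) * (l + 1 + 1) * w (k + 1) ^ 2) := by ring

theorem UlcN_mono {n d d' : ℕ} {w : ℕ → ℕ} (hd : d' ≤ d) (h : UlcN n d w) : UlcN n d' w := by
  induction d, hd using Nat.le_induction with
  | base => exact h
  | succ m _ ih => exact ih (UlcN_mono_one h)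

/-- The property for all natural labellings. -/
def PU (d : ℕ) (α : Type) [PartialOrder α] : Prop :=
  ∀ (n : ℕ) (f : α ≃ Fin n), Nat' f → UlcN n d (wN f)

theorem PU.mono {d d' : ℕ} {α : Type} [PartialOrder α] (hd : d' ≤ d) (h : PU d α) : PU d' α :=
  fun n f hf => UlcN_mono hd (h n f hf)

section

variable {α β : Type} [PartialOrder α] [PartialOrder β]

theorem wN_trans {n : ℕ} (e : α ≃o β) (f : α ≃ Fin n) :
    wN (e.symm.toEquiv.trans f) = wN f := by
  funext k
  unfold wN
  refine Nat.card_congr (Equiv.subtypeEquiv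
    (Equiv.equivCongr (Equiv.refl _) e.symm.toEquiv) fun σ => ?_)
  refine and_congr ?_ ?_
  · refine forall_congr' fun i => forall_congr' fun j => ?_
    simp
  · rfl

theorem wN_indep {n : ℕ} {f f' : α ≃ Fin n} (hf : Nat' f) (hf' : Nat' f') : wN f = wN f' := by
  classical
  have : Finite α := Finite.intro f
  let : Fintype α := Fintype.ofFinite α
  have hn : Fintype.card α = n := by rw [Fintype.card_congr f, Fintype.card_fin]
  subst hn
  rcases isEmpty_or_nonempty α with he | hne
  · rw [Subsingleton.elim f f']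
  · funext k
    have e1 : wN f k = (W (Dl (fun x => ((f x : ℕ) : ℤ))) (Finset.univ : Finset α)).coeff k :=
      link f k
    have e2 : wN f' k = (W (Dl (fun x => ((f' x : ℕ) : ℤ))) (Finset.univ : Finset α)).coeff k :=
      link f' k
    rw [e1, e2]
    congr 1
    apply W_indep
    · exact fun x y hxy => f.injective (Fin.ext (Nat.cast_injective hxy))
    · exact fun x y hxy => f'.injective (Fin.ext (Nat.cast_injective hxy))
    · exact fun x y hxy => Nat.cast_lt.2 (Fin.lt_def.1 (hf x y hxy))
    · exact fun x y hxy => Nat.cast_lt.2 (Fin.lt_def.1 (hf' x y hxy))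

theorem PU_of_one {d n : ℕ} {f : α ≃ Fin n} (hf : Nat' f) (h : UlcN n d (wN f)) : PU d α := by
  intro m g hg
  have hmn : m = n := by
    have := Fintype.card_congr (g.symm.trans f)
    simpa using this
  subst hmn
  rw [wN_indep hg hf]
  exact h

theorem PU_iso {d : ℕ} (e : α ≃o β) (h : PU d α) : PU d β := by
  intro n g hg
  have h1 := h n (e.toEquiv.trans g) (fun x y hxy => hg _ _ (e.lt_iff_lt.2 hxy))
  have h2 := wN_trans e (e.toEquiv.trans g)
  have h3 : e.symm.toEquiv.trans (e.toEquiv.trans g) = g := by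
    ext x
    simp
  rw [h3] at h2
  rw [h2]
  exact h1

theorem exists_natural (α : Type) [PartialOrder α] [Finite α] :
    ∃ (n : ℕ) (f : α ≃ Fin n), Nat' f := by
  classical
  let : Fintype α := Fintype.ofFinite α
  let : Fintype (LinearExtension α) := inferInstanceAs (Fintype α)
  let e := Fintype.orderIsoFinOfCardEq (LinearExtension α) rfl
  let i : α ≃ LinearExtension α := Equiv.refl α
  refine ⟨_, i.trans e.symm.toEquiv, fun x y hxy => ?_⟩
  have h1 : i x < i y := by
    refine lt_of_le_of_ne ((toLinearExtension (α := α)).monotone hxy.le) ?_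
    exact i.injective.ne hxy.ne
  exact e.symm.lt_iff_lt.2 h1

theorem cc_zero1 {p q i j k : ℕ} (hj : j ≤ q) (h : q + i < k) : cc p q i j k = 0 := by
  unfold cc
  split_ifs with h1
  · rw [Nat.choose_eq_zero_of_lt (show q + i - j < k - j by omega), mul_zero]
  · rfl

theorem cc_zero2 {p q i j k : ℕ} (hi : i ≤ p) (h : p + j < k) : cc p q i j k = 0 := by
  unfold cc
  split_ifs with h1
  · rw [Nat.choose_eq_zero_of_lt (show p + j - i < k - i by omega), zero_mul]
  · rfl

theorem cc_symm (p q i j k : ℕ) : cc q p j i k = cc p q i j k := by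
  unfold cc
  by_cases h : i ≤ k ∧ j ≤ k
  · rw [if_pos h, if_pos h.symm, mul_comm]
  · rw [if_neg h, if_neg (fun h' => h h'.symm)]

theorem hh_symm (p q r s : ℕ) (f g : ℕ → ℝ) : hh q p s r g f = hh p q r s f g := by
  funext k
  unfold hh
  rw [Finset.sum_comm]
  refine Finset.sum_congr rfl fun i _ => Finset.sum_congr rfl fun j _ => ?_
  rw [cc_symm]
  ring

theorem UlcN_sum [Fintype α] [Fintype β] [Nonempty α] [Nonempty β]
    {f : α ≃ Fin (Fintype.card α)} {g : β ≃ Fin (Fintype.card β)}
    {h : α ⊕ β ≃ Fin (Fintype.card (α ⊕ β))} (hf : Nat' f) (hg : Nat' g) (hh' : Nat' h) {d e : ℕ}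
    (h1 : UlcN (Fintype.card α) d (wnum α f)) (h2 : UlcN (Fintype.card β) e (wnum β g)) :
    UlcN (Fintype.card α + Fintype.card β) (max d e) (wnum (α ⊕ β) h) := by
  have f0 : 0 < wnum α f 0 := wnum_zero_pos hf
  have g0 : 0 < wnum β g 0 := wnum_zero_pos hg
  have hd : d ≤ Fintype.card α := by
    by_contra hcon
    have := h1.1 0 (by omega)
    omega
  have he : e ≤ Fintype.card β := by
    by_contra hcon
    have := h2.1 0 (by omega)
    omega
  obtain ⟨r, hr⟩ := Nat.exists_eq_add_of_le hd
  obtain ⟨s, hs⟩ := Nat.exists_eq_add_of_le he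
  have fz : ∀ i, r < i → wnum α f i = 0 := fun i hi => h1.1 i (by omega)
  have gz : ∀ i, s < i → wnum β g i = 0 := fun i hi => h2.1 i (by omega)
  have key := W_sum hf hg hh' (r := r) (s := s) (by omega) (by omega) fz gz
  set F : ℕ → ℝ := fun i => (wnum α f i : ℝ) with hF
  set G : ℕ → ℝ := fun i => (wnum β g i : ℝ) with hG
  have keyR : ∀ k, (wnum (α ⊕ β) h k : ℝ) = hh (Fintype.card α) (Fintype.card β) r s F G k := by
    intro k
    rw [key k, hh]
    push_cast
    rfl
  have uF : Ulc r F := by
    intro i j hij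
    have := h1.2 i j (by omega)
    simp only [hF]
    exact_mod_cast this
  have uG : Ulc s G := by
    intro i j hij
    have := h2.2 i j (by omega)
    simp only [hG]
    exact_mod_cast this
  have F0 : 0 < F 0 := by simp only [hF]; exact_mod_cast f0
  have G0 : 0 < G 0 := by simp only [hG]; exact_mod_cast g0
  have Fn : ∀ i, 0 ≤ F i := fun i => Nat.cast_nonneg _
  have Gn : ∀ i, 0 ≤ G i := fun i => Nat.cast_nonneg _
  have Fz : ∀ i, r < i → F i = 0 := fun i hi => by simp only [hF]; rw [fz i hi, Nat.cast_zero]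
  have Gz : ∀ i, s < i → G i = 0 := fun i hi => by simp only [hG]; rw [gz i hi, Nat.cast_zero]
  have Fg : ∀ i, F (i + 1) ≠ 0 → F i ≠ 0 := fun i hi => by
    simp only [hF] at hi ⊢
    exact_mod_cast wnum_gap hf i (by exact_mod_cast hi)
  have Gg' : ∀ i, G (i + 1) ≠ 0 → G i ≠ 0 := fun i hi => by
    simp only [hG] at hi ⊢
    exact_mod_cast wnum_gap hg i (by exact_mod_cast hi)
  have A := closure (p := Fintype.card α) (q := Fintype.card β) (r := r) (s := s) (by omega)
    (by omega) F0 Fn Fz Fg uF G0 Gn Gz Gg' uG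
  have B := closure (p := Fintype.card β) (q := Fintype.card α) (r := s) (s := r) (by omega)
    (by omega) G0 Gn Gz Gg' uG F0 Fn Fz Fg uF
  rw [hh_symm] at B
  refine ⟨fun k hk => ?_, fun k l hkl => ?_⟩
  · rw [key k]
    refine Finset.sum_eq_zero fun i hi => Finset.sum_eq_zero fun j hj => ?_
    rw [Finset.mem_range] at hi hj
    rcases le_total e d with hde | hde
    · rw [max_eq_left hde] at hk
      rw [cc_zero1 (by omega) (by omega), mul_zero]
    · rw [max_eq_right hde] at hk
      rw [cc_zero2 (by omega) (by omega), mul_zero]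
  · have : ((k : ℝ) + 2) * ((l : ℝ) + 2) *
        ((wnum (α ⊕ β) h k : ℝ) * (wnum (α ⊕ β) h (k + 2) : ℝ)) ≤
        ((k : ℝ) + 1) * ((l : ℝ) + 1) * (wnum (α ⊕ β) h (k + 1) : ℝ) ^ 2 := by
      rw [keyR, keyR, keyR]
      rcases le_total e d with hde | hde
      · rw [max_eq_left hde] at hkl
        exact A k l (by omega)
      · rw [max_eq_right hde] at hkl
        exact B k l (by omega)
    exact_mod_cast this

theorem PU_sum [Finite α] [Finite β] [Nonempty α] [Nonempty β] {d e : ℕ} (h1 : PU d α)
    (h2 : PU e β) : PU (max d e) (α ⊕ β) := by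
  classical
  let : Fintype α := Fintype.ofFinite α
  let : Fintype β := Fintype.ofFinite β
  intro n h hh'
  have hn : n = Fintype.card (α ⊕ β) := by
    rw [Fintype.card_congr h, Fintype.card_fin]
  subst hn
  obtain ⟨m, f, hf⟩ := exists_natural α
  have hm : m = Fintype.card α := by rw [Fintype.card_congr f, Fintype.card_fin]
  subst hm
  obtain ⟨m, g, hg⟩ := exists_natural β
  have hm : m = Fintype.card β := by rw [Fintype.card_congr g, Fintype.card_fin]
  subst hm
  have := UlcN_sum hf hg hh' (h1 _ f hf) (h2 _ g hg)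
  have hc : Fintype.card (α ⊕ β) = Fintype.card α + Fintype.card β := Fintype.card_sum
  refine ⟨fun k hk => this.1 k (by omega), fun k l hkl => this.2 k l (by omega)⟩

end

/-- The decomposition of a poset. -/
noncomputable def splitIso {α ι : Type} [PartialOrder α] (c : α → ι)
    (hc : ∀ x y : α, x < y → c x = c y) (i : ι) [DecidablePred fun y : α => c y = i] :
    {y : α // c y = i} ⊕ {y : α // ¬ c y = i} ≃o α where
  toEquiv := Equiv.sumCompl _
  map_rel_iff' := by
    rintro (⟨a, ha⟩ | ⟨a, ha⟩) (⟨b, hb⟩ | ⟨b, hb⟩)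
    · simp
    · simp only [Equiv.sumCompl_apply_inl, Equiv.sumCompl_apply_inr, Sum.not_inl_le_inr, iff_false]
      intro hab
      rcases hab.lt_or_eq with h | h
      · exact hb ((hc a b h).symm.trans ha)
      · subst h
        exact hb ha
    · simp only [Equiv.sumCompl_apply_inl, Equiv.sumCompl_apply_inr, Sum.not_inr_le_inl, iff_false]
      intro hab
      rcases hab.lt_or_eq with h | h
      · exact ha ((hc a b h).trans hb)
      · subst h
        exact ha hb
    · simp

theorem family {ι : Type} (d : ι → ℕ) : ∀ (N : ℕ) (α : Type) [PartialOrder α] [Finite α],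
    Nat.card α ≤ N → ∀ (c : α → ι), (∀ x y : α, x < y → c x = c y) →
    (∀ x : α, PU (d (c x)) {y : α // c y = c x}) → ∀ x : α, PU (d (c x)) α := by
  classical
  intro N
  induction N with
  | zero =>
    intro α _ _ hN c _ _ x
    have : Nat.card α ≠ 0 := Nat.card_ne_zero.2 ⟨⟨x⟩, inferInstance⟩
    omega
  | succ N ih =>
    intro α _ _ hN c hc hP x
    have e := splitIso c hc (c x)
    have hA : Nonempty {y : α // c y = c x} := ⟨⟨x, rfl⟩⟩
    rcases isEmpty_or_nonempty {y : α // ¬ c y = c x} with hB | hB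
    · have e' : {y : α // c y = c x} ≃o α :=
        { toEquiv := Equiv.subtypeUnivEquiv (fun y => by
            by_contra hcon
            exact hB.false ⟨y, hcon⟩)
          map_rel_iff' := by
            intro a b
            rfl }
      exact PU_iso e' (hP x)
    · have hcard : Nat.card {y : α // ¬ c y = c x} ≤ N := by
        have h1 : Nat.card ({y : α // c y = c x} ⊕ {y : α // ¬ c y = c x}) = Nat.card α :=
          Nat.card_congr e.toEquiv
        rw [Nat.card_sum] at h1
        have h2 : Nat.card {y : α // c y = c x} ≠ 0 := Nat.card_ne_zero.2 ⟨hA, inferInstance⟩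
        omega
      have hB' := ih {y : α // ¬ c y = c x} hcard (fun y => c y.1)
        (fun a b hab => hc a.1 b.1 hab) (fun y => by
          have e2 : {z : α // c z = c y.1} ≃o
              {z : {y : α // ¬ c y = c x} // c z.1 = c y.1} :=
            { toFun := fun z => ⟨⟨z.1, fun h => y.2 (z.2.symm.trans h)⟩, z.2⟩
              invFun := fun z => ⟨z.1.1, z.2⟩
              left_inv := fun z => rfl
              right_inv := fun z => rfl
              map_rel_iff' := by
                intro a b
                rfl }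
          exact PU_iso e2 (hP y.1))
      obtain ⟨y⟩ := hB
      have : Nonempty {y : α // ¬ c y = c x} := ⟨y⟩
      exact PU.mono (le_max_left _ _) (PU_iso e (PU_sum (hP x) (hB' y)))

/-- Order dimension at most two. -/
theorem PU_dim {α : Type} [PartialOrder α] [Finite α] {β γ : Type*} [LinearOrder β]
    [LinearOrder γ] (r : α → β) (s : α → γ) (h : ∀ x y : α, x ≤ y ↔ r x ≤ r y ∧ s x ≤ s y) :
    PU 0 α := by
  classical
  let : Fintype α := Fintype.ofFinite α
  intro n f hf
  have hn : n = Fintype.card α := by rw [Fintype.card_congr f, Fintype.card_fin]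
  subst hn
  refine ⟨fun k hk => wnum_high f k (by omega), fun k l hkl => ?_⟩
  exact (dim_two f hf r s h).2 k l (by omega)

/-- Real-rooted posets. -/
theorem UlcN_real {α : Type} [PartialOrder α] {n d : ℕ} {f : α ≃ Fin n} (hf : Nat' f)
    (hd : ∀ k, n < k + d → wN f k = 0)
    (hs : (∑ k ∈ range (n + 1), C (wN f k : ℝ) * X ^ k : ℝ[X]).Splits) : UlcN n d (wN f) := by
  classical
  have : Finite α := Finite.intro f
  let : Fintype α := Fintype.ofFinite α
  have hn : n = Fintype.card α := by rw [Fintype.card_congr f, Fintype.card_fin]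
  subst hn
  rcases isEmpty_or_nonempty α with he | hne
  · have hc : Fintype.card α = 0 := Fintype.card_eq_zero
    exact ⟨hd, fun k l hkl => by omega⟩
  set p : ℝ[X] := ∑ k ∈ range (Fintype.card α + 1), C (wN f k : ℝ) * X ^ k with hp
  have hcoef : ∀ k, p.coeff k = (wN f k : ℝ) := by
    intro k
    rw [hp, finsetSum_coeff]
    simp only [coeff_C_mul, coeff_X_pow, mul_ite, mul_one, mul_zero]
    rw [Finset.sum_ite_eq]
    split_ifs with h
    · rfl
    · rw [Finset.mem_range, not_lt] at h
      have : wN f k = 0 := wnum_high f k (by omega)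
      rw [this, Nat.cast_zero]
  have h0 : 0 < wN f 0 := wnum_zero_pos hf
  have hN := newton hs (fun k => by rw [hcoef]; exact Nat.cast_nonneg _)
    (by rw [hcoef]; exact_mod_cast h0)
  have hdeg : p.natDegree + d ≤ Fintype.card α := by
    by_contra hcon
    push Not at hcon
    have h1 := hd _ hcon
    have hp0 : p ≠ 0 := by
      intro h
      have := hcoef 0
      rw [h, coeff_zero] at this
      have h2 : (0 : ℝ) < (wN f 0 : ℝ) := by exact_mod_cast h0
      linarith
    have h2 : p.coeff p.natDegree ≠ 0 := by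
      rw [coeff_natDegree]
      exact leadingCoeff_ne_zero.2 hp0
    rw [hcoef, h1, Nat.cast_zero] at h2
    exact h2 rfl
  have h3 : UlcN (Fintype.card α) (Fintype.card α - p.natDegree) (wN f) := by
    refine ⟨fun k hk => ?_, fun k l hkl => ?_⟩
    · have h4 : p.coeff k = 0 := coeff_eq_zero_of_natDegree_lt (by omega)
      rw [hcoef] at h4
      exact_mod_cast h4
    · have h4 := hN k l (by omega)
      rw [hcoef, hcoef, hcoef] at h4
      exact_mod_cast h4
  exact UlcN_mono (by omega) h3

/-- Unimodality. -/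
theorem unimodal_of_PU {α : Type} [PartialOrder α] {n : ℕ} {f : α ≃ Fin n} (hf : Nat' f)
    (h : UlcN n 0 (wN f)) :
    ∃ m : ℕ, ∀ k : ℕ, (k < m → wN f k ≤ wN f (k + 1)) ∧ (m ≤ k → wN f (k + 1) ≤ wN f k) := by
  classical
  have : Finite α := Finite.intro f
  let : Fintype α := Fintype.ofFinite α
  have hn : n = Fintype.card α := by rw [Fintype.card_congr f, Fintype.card_fin]
  subst hn
  refine unimodal_of_lc (n := Fintype.card α) (fun k => ?_) (fun k hk => wnum_gap hf k hk)
    (fun k hk => h.1 k (by omega))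
  by_cases hk : k + 2 ≤ Fintype.card α
  · obtain ⟨l, hl⟩ := Nat.exists_eq_add_of_le hk
    have h1 := h.2 k l (by omega)
    have h2 : (k + 1) * (l + 1) * (wN f k * wN f (k + 2)) ≤
        (k + 2) * (l + 2) * (wN f k * wN f (k + 2)) :=
      Nat.mul_le_mul_right _ (Nat.mul_le_mul (by omega) (by omega))
    exact Nat.le_of_mul_le_mul_left (h2.trans h1) (Nat.mul_pos (by omega) (by omega))
  · rw [h.1 (k + 2) (by omega)]
    simp

end Pool.UC86
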