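import Pool.Agent.UC86.Sym

set_option autoImplicit false

/-!
# UC86/Arr: the four letter array of the disjoint union
-/

open Finset Matrix Nat

namespace Pool.UC86

/-- `1 / (p - α)!`, zero for `α > p`. -/
noncomputable def rf (p α : ℕ) : ℝ := if α ≤ p then ((p - α)! : ℝ)⁻¹ else 0

theorem rf_nonneg (p α : ℕ) : 0 ≤ rf p α := by
  unfold rf
  split_ifs
  · positivity
  · exact le_refl _

theorem rf_pos {p α : ℕ} (h : α ≤ p) : 0 < rf p α := by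
  unfold rf
  rw [if_pos h]
  positivity

theorem rf_zero {p α : ℕ} (h : p < α) : rf p α = 0 := by
  unfold rf
  rw [if_neg (not_le.2 h)]

theorem rf_succ (p α : ℕ) : rf p (α + 1) = ((p - α : ℕ) : ℝ) * rf p α := by
  rcases lt_trichotomy α p with h | h | h
  · unfold rf
    rw [if_pos (Nat.succ_le_of_lt h), if_pos h.le]
    obtain ⟨d, rfl⟩ := Nat.exists_eq_add_of_lt h
    rw [show α + d + 1 - (α + 1) = d by omega, show α + d + 1 - α = d + 1 by omega,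
      Nat.factorial_succ]
    push_cast
    have h1 : (0 : ℝ) < (d ! : ℝ) := by positivity
    have h2 : (0 : ℝ) < (d : ℝ) + 1 := by positivity
    field_simp
  · subst h
    rw [rf_zero (Nat.lt_succ_self _)]
    simp
  · rw [rf_zero h, rf_zero (by omega), mul_zero]

/-- The array. -/
noncomputable def arr (p q δ : ℕ) (F G : ℕ → ℝ) (κ : Fin 4 → ℕ) : ℝ :=
  ((κ 0 + κ 1)! : ℝ) * ((κ 2 + κ 3 + δ)! : ℝ) * rf p (κ 0) * rf q (κ 1) * G (κ 2) * F (κ 3)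

/-- The conditions on a sequence: positive on `[0, r]`, zero beyond, and
`(r - c) F_c F_{c+2} ≤ (r - c - 1) F_{c+1}²`. -/
structure Ok (r : ℕ) (F : ℕ → ℝ) : Prop where
  pos : ∀ c, c ≤ r → 0 < F c
  zero : ∀ c, r < c → F c = 0
  lc : ∀ c, c ≤ r → ((r - c : ℕ) : ℝ) * (F c * F (c + 2)) ≤ (((r - c : ℕ) : ℝ) - 1) * F (c + 1) ^ 2

theorem Ok.nonneg {r : ℕ} {F : ℕ → ℝ} (h : Ok r F) (c : ℕ) : 0 ≤ F c := by
  by_cases hc : c ≤ r
  · exact (h.pos c hc).le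
  · exact (h.zero c (not_le.1 hc)).ge

variable {p q δ r s : ℕ} {F G : ℕ → ℝ}

theorem arr_nonneg (hF : Ok r F) (hG : Ok s G) (κ : Fin 4 → ℕ) : 0 ≤ arr p q δ F G κ := by
  unfold arr
  have h1 := rf_nonneg p (κ 0)
  have h2 := rf_nonneg q (κ 1)
  have h3 := hG.nonneg (κ 2)
  have h4 := hF.nonneg (κ 3)
  positivity

theorem arr_pos (hF : Ok r F) (hG : Ok s G) {κ : Fin 4 → ℕ} (h : κ ≤ ![p, q, s, r]) :
    0 < arr p q δ F G κ := by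
  unfold arr
  have h1 := rf_pos (h 0)
  have h2 := rf_pos (h 1)
  have h3 := hG.pos _ (h 2)
  have h4 := hF.pos _ (h 3)
  simp only [Matrix.cons_val_zero, Matrix.cons_val_one] at h1 h2
  positivity

theorem arr_zero (hF : Ok r F) (hG : Ok s G) {κ : Fin 4 → ℕ} (h : ¬ κ ≤ ![p, q, s, r]) :
    arr p q δ F G κ = 0 := by
  unfold arr
  rw [Pi.le_def] at h
  push Not at h
  obtain ⟨i, hi⟩ := h
  fin_cases i
  · have : p < κ 0 := hi
    rw [rf_zero this]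
    ring
  · have : q < κ 1 := hi
    rw [rf_zero this]
    ring
  · have : s < κ 2 := hi
    rw [hG.zero _ this]
    ring
  · have : r < κ 3 := hi
    rw [hF.zero _ this]
    ring

theorem fac1 (m : ℕ) : ((m + 1)! : ℝ) = ((m : ℝ) + 1) * (m ! : ℝ) := by
  rw [Nat.factorial_succ]
  push_cast
  ring

theorem fac2 (m : ℕ) : ((m + 2)! : ℝ) = ((m : ℝ) + 2) * (((m : ℝ) + 1) * (m ! : ℝ)) := by
  rw [Nat.factorial_succ, Nat.factorial_succ]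
  push_cast
  ring

theorem rf2 (p α : ℕ) : rf p (α + 2) =
    ((p - α : ℕ) : ℝ) * (((p - α : ℕ) : ℝ) - 1) * rf p α := by
  rw [show α + 2 = α + 1 + 1 by ring, rf_succ, rf_succ]
  rcases Nat.eq_zero_or_pos (p - α) with h | h
  · rw [h]
    simp
  · rw [show p - (α + 1) = p - α - 1 by omega, Nat.cast_pred h]
    ring

/-- The quadratic form of the array. -/
theorem arr_quad (κ : Fin 4 → ℕ) (v : Fin 4 → ℝ) :
    v ⬝ᵥ form (arr p q δ F G) κ *ᵥ v =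
      ((κ 0 + κ 1)! : ℝ) * ((κ 2 + κ 3 + δ)! : ℝ) * rf p (κ 0) * rf q (κ 1) *
      (((κ 0 + κ 1 + 2 : ℕ) : ℝ) * (((κ 0 + κ 1 + 2 : ℕ) : ℝ) - 1) * (F (κ 3) * G (κ 2)) *
        (((p - κ 0 : ℕ) : ℝ) * (((p - κ 0 : ℕ) : ℝ) - 1) * v 0 ^ 2 +
          2 * (((p - κ 0 : ℕ) : ℝ) * ((q - κ 1 : ℕ) : ℝ)) * (v 0 * v 1) +
          ((q - κ 1 : ℕ) : ℝ) * (((q - κ 1 : ℕ) : ℝ) - 1) * v 1 ^ 2) +
      2 * ((((κ 0 + κ 1 + 2 : ℕ) : ℝ) - 1) * (((κ 2 + κ 3 + δ + 2 : ℕ) : ℝ) - 1)) *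
        ((((p - κ 0 : ℕ) : ℝ) * v 0 + ((q - κ 1 : ℕ) : ℝ) * v 1) *
          (F (κ 3) * G (κ 2 + 1) * v 2 + F (κ 3 + 1) * G (κ 2) * v 3)) +
      ((κ 2 + κ 3 + δ + 2 : ℕ) : ℝ) * (((κ 2 + κ 3 + δ + 2 : ℕ) : ℝ) - 1) *
        (F (κ 3) * G (κ 2 + 2) * v 2 ^ 2 + 2 * (F (κ 3 + 1) * G (κ 2 + 1)) * (v 2 * v 3) +
          F (κ 3 + 2) * G (κ 2) * v 3 ^ 2)) := by
  have e00 : form (arr p q δ F G) κ 0 0 = ((κ 0 + κ 1 + 2)! : ℝ) * ((κ 2 + κ 3 + δ)! : ℝ) *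
      rf p (κ 0 + 2) * rf q (κ 1) * G (κ 2) * F (κ 3) := by
    simp only [form_apply, arr, Pi.add_apply, Pi.single_apply]
    simp only [Fin.isValue, ↓reduceIte, Fin.reduceEq, add_zero]
    rw [show κ 0 + 1 + 1 + κ 1 = κ 0 + κ 1 + 2 by ring, show κ 0 + 1 + 1 = κ 0 + 2 by ring]
  have e01 : form (arr p q δ F G) κ 0 1 = ((κ 0 + κ 1 + 2)! : ℝ) * ((κ 2 + κ 3 + δ)! : ℝ) *
      rf p (κ 0 + 1) * rf q (κ 1 + 1) * G (κ 2) * F (κ 3) := by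
    simp only [form_apply, arr, Pi.add_apply, Pi.single_apply]
    simp only [Fin.isValue, ↓reduceIte, Fin.reduceEq, add_zero]
    rw [show κ 0 + 1 + (κ 1 + 1) = κ 0 + κ 1 + 2 by ring]
  have e11 : form (arr p q δ F G) κ 1 1 = ((κ 0 + κ 1 + 2)! : ℝ) * ((κ 2 + κ 3 + δ)! : ℝ) *
      rf p (κ 0) * rf q (κ 1 + 2) * G (κ 2) * F (κ 3) := by
    simp only [form_apply, arr, Pi.add_apply, Pi.single_apply]
    simp only [Fin.isValue, ↓reduceIte, Fin.reduceEq, add_zero]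
    rw [show κ 0 + (κ 1 + 1 + 1) = κ 0 + κ 1 + 2 by ring, show κ 1 + 1 + 1 = κ 1 + 2 by ring]
  have e02 : form (arr p q δ F G) κ 0 2 = ((κ 0 + κ 1 + 1)! : ℝ) * ((κ 2 + κ 3 + δ + 1)! : ℝ) *
      rf p (κ 0 + 1) * rf q (κ 1) * G (κ 2 + 1) * F (κ 3) := by
    simp only [form_apply, arr, Pi.add_apply, Pi.single_apply]
    simp only [Fin.isValue, ↓reduceIte, Fin.reduceEq, add_zero]
    rw [show κ 0 + 1 + κ 1 = κ 0 + κ 1 + 1 by ring,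
      show κ 2 + 1 + κ 3 + δ = κ 2 + κ 3 + δ + 1 by ring]
  have e03 : form (arr p q δ F G) κ 0 3 = ((κ 0 + κ 1 + 1)! : ℝ) * ((κ 2 + κ 3 + δ + 1)! : ℝ) *
      rf p (κ 0 + 1) * rf q (κ 1) * G (κ 2) * F (κ 3 + 1) := by
    simp only [form_apply, arr, Pi.add_apply, Pi.single_apply]
    simp only [Fin.isValue, ↓reduceIte, Fin.reduceEq, add_zero]
    rw [show κ 0 + 1 + κ 1 = κ 0 + κ 1 + 1 by ring,
      show κ 2 + (κ 3 + 1) + δ = κ 2 + κ 3 + δ + 1 by ring]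
  have e12 : form (arr p q δ F G) κ 1 2 = ((κ 0 + κ 1 + 1)! : ℝ) * ((κ 2 + κ 3 + δ + 1)! : ℝ) *
      rf p (κ 0) * rf q (κ 1 + 1) * G (κ 2 + 1) * F (κ 3) := by
    simp only [form_apply, arr, Pi.add_apply, Pi.single_apply]
    simp only [Fin.isValue, ↓reduceIte, Fin.reduceEq, add_zero]
    rw [show κ 0 + (κ 1 + 1) = κ 0 + κ 1 + 1 by ring,
      show κ 2 + 1 + κ 3 + δ = κ 2 + κ 3 + δ + 1 by ring]
  have e13 : form (arr p q δ F G) κ 1 3 = ((κ 0 + κ 1 + 1)! : ℝ) * ((κ 2 + κ 3 + δ + 1)! : ℝ) *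
      rf p (κ 0) * rf q (κ 1 + 1) * G (κ 2) * F (κ 3 + 1) := by
    simp only [form_apply, arr, Pi.add_apply, Pi.single_apply]
    simp only [Fin.isValue, ↓reduceIte, Fin.reduceEq, add_zero]
    rw [show κ 0 + (κ 1 + 1) = κ 0 + κ 1 + 1 by ring,
      show κ 2 + (κ 3 + 1) + δ = κ 2 + κ 3 + δ + 1 by ring]
  have e22 : form (arr p q δ F G) κ 2 2 = ((κ 0 + κ 1)! : ℝ) * ((κ 2 + κ 3 + δ + 2)! : ℝ) *
      rf p (κ 0) * rf q (κ 1) * G (κ 2 + 2) * F (κ 3) := by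
    simp only [form_apply, arr, Pi.add_apply, Pi.single_apply]
    simp only [Fin.isValue, ↓reduceIte, Fin.reduceEq, add_zero]
    rw [show κ 2 + 1 + 1 + κ 3 + δ = κ 2 + κ 3 + δ + 2 by ring, show κ 2 + 1 + 1 = κ 2 + 2 by ring]
  have e23 : form (arr p q δ F G) κ 2 3 = ((κ 0 + κ 1)! : ℝ) * ((κ 2 + κ 3 + δ + 2)! : ℝ) *
      rf p (κ 0) * rf q (κ 1) * G (κ 2 + 1) * F (κ 3 + 1) := by
    simp only [form_apply, arr, Pi.add_apply, Pi.single_apply]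
    simp only [Fin.isValue, ↓reduceIte, Fin.reduceEq, add_zero]
    rw [show κ 2 + 1 + (κ 3 + 1) + δ = κ 2 + κ 3 + δ + 2 by ring]
  have e33 : form (arr p q δ F G) κ 3 3 = ((κ 0 + κ 1)! : ℝ) * ((κ 2 + κ 3 + δ + 2)! : ℝ) *
      rf p (κ 0) * rf q (κ 1) * G (κ 2) * F (κ 3 + 2) := by
    simp only [form_apply, arr, Pi.add_apply, Pi.single_apply]
    simp only [Fin.isValue, ↓reduceIte, Fin.reduceEq, add_zero]
    rw [show κ 2 + (κ 3 + 1 + 1) + δ = κ 2 + κ 3 + δ + 2 by ring,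
      show κ 3 + 1 + 1 = κ 3 + 2 by ring]
  have hs : ∀ i j, form (arr p q δ F G) κ i j = form (arr p q δ F G) κ j i := by
    intro i j
    simp only [form_apply]
    rw [add_right_comm]
  simp only [dotProduct, mulVec, Fin.sum_univ_four]
  rw [hs 1 0, hs 2 0, hs 3 0, hs 2 1, hs 3 1, hs 3 2, e00, e01, e02, e03, e11, e12, e13, e22, e23,
    e33]
  simp only [fac1, rf2, rf_succ]
  push_cast
  ring

theorem arr_AF (hF : Ok r F) (hG : Ok s G) (hr : r + δ = p) (hs : s ≤ q) {κ : Fin 4 → ℕ}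
    (hκ : ∑ i, κ i + 2 = q + r) : AF (form (arr p q δ F G) κ) := by
  have hsym : (form (arr p q δ F G) κ).IsSymm := by
    ext i j
    simp only [transpose_apply, form_apply]
    rw [add_right_comm]
  have hnn : ∀ i j, 0 ≤ form (arr p q δ F G) κ i j := fun i j => arr_nonneg hF hG _
  by_cases hβ : κ ≤ ![p, q, s, r]
  · have h0 : κ 0 ≤ p := hβ 0
    have h1 : κ 1 ≤ q := hβ 1
    have h2 : κ 2 ≤ s := hβ 2
    have h3 : κ 3 ≤ r := hβ 3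
    rw [Fin.sum_univ_four] at hκ
    set ℓ : (Fin 4 → ℝ) →ₗ[ℝ] ℝ :=
      (((κ 0 + κ 1 + 2 : ℕ) : ℝ) * (F (κ 3) * G (κ 2)) * ((p - κ 0 : ℕ) : ℝ)) •
        (LinearMap.proj (0 : Fin 4) : (Fin 4 → ℝ) →ₗ[ℝ] ℝ) +
      (((κ 0 + κ 1 + 2 : ℕ) : ℝ) * (F (κ 3) * G (κ 2)) * ((q - κ 1 : ℕ) : ℝ)) •
        (LinearMap.proj (1 : Fin 4) : (Fin 4 → ℝ) →ₗ[ℝ] ℝ) +
      (((κ 2 + κ 3 + δ + 2 : ℕ) : ℝ) * (F (κ 3) * G (κ 2 + 1))) •
        (LinearMap.proj (2 : Fin 4) : (Fin 4 → ℝ) →ₗ[ℝ] ℝ) +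
      (((κ 2 + κ 3 + δ + 2 : ℕ) : ℝ) * (F (κ 3 + 1) * G (κ 2))) •
        (LinearMap.proj (3 : Fin 4) : (Fin 4 → ℝ) →ₗ[ℝ] ℝ) with hℓ
    refine AF_of hsym hnn ℓ fun v hv => ?_
    rw [arr_quad]
    have hv' : ((κ 0 + κ 1 + 2 : ℕ) : ℝ) * (F (κ 3) * G (κ 2)) *
        (((p - κ 0 : ℕ) : ℝ) * v 0 + ((q - κ 1 : ℕ) : ℝ) * v 1) +
        ((κ 2 + κ 3 + δ + 2 : ℕ) : ℝ) *
          (F (κ 3) * G (κ 2 + 1) * v 2 + F (κ 3 + 1) * G (κ 2) * v 3) = 0 := by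
      rw [hℓ] at hv
      simp only [LinearMap.add_apply, LinearMap.smul_apply, LinearMap.proj_apply,
        smul_eq_mul] at hv
      linarith
    have r1 := rf_nonneg p (κ 0)
    have r2 := rf_nonneg q (κ 1)
    refine mul_nonpos_of_nonneg_of_nonpos (by positivity) ?_
    refine core (Pp := ((r - κ 3 : ℕ) : ℝ)) (Qp := ((s - κ 2 : ℕ) : ℝ)) ?_ ?_ ?_ (Nat.cast_nonneg _)
      (Nat.cast_nonneg _) (hF.pos _ h3) (hG.pos _ h2) (Nat.cast_nonneg _) (Nat.cast_nonneg _) ?_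
      (hF.lc _ h3) (hG.lc _ h2) ?_ ?_ hv'
    · have : (2 : ℕ) ≤ κ 0 + κ 1 + 2 := by omega
      exact_mod_cast this
    · have : κ 2 + κ 3 + δ + 2 = (p - κ 0) + (q - κ 1) := by omega
      rw [this]
      push_cast
      ring
    · have : (2 : ℕ) ≤ κ 2 + κ 3 + δ + 2 := by omega
      exact_mod_cast this
    · have : (r - κ 3) + (s - κ 2) ≤ κ 0 + κ 1 + 2 := by omega
      exact_mod_cast this
    · intro h
      have h' : r - κ 3 = 0 := by exact_mod_cast h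
      exact ⟨hF.zero _ (by omega), hF.zero _ (by omega)⟩
    · intro h
      have h' : s - κ 2 = 0 := by exact_mod_cast h
      exact ⟨hG.zero _ (by omega), hG.zero _ (by omega)⟩
  · have hz : form (arr p q δ F G) κ = 0 := by
      ext i j
      rw [form_apply]
      exact arr_zero hF hG fun h' => hβ (le_of_add_single (le_of_add_single h'))
    rw [hz]
    intro x y _
    simp

theorem arr_BL (hF : Ok r F) (hG : Ok s G) (hr : r + δ = p) (hs : s ≤ q) :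
    BL ![p, q, s, r] (q + r) (arr p q δ F G) :=
  ⟨fun _ _ h => arr_pos hF hG h, fun _ h => arr_zero hF hG h, fun _ h => arr_AF hF hG hr hs h⟩

end Pool.UC86
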