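import Pool.Agent.UC86.Tri

set_option autoImplicit false

/-!
# UC86/Box: arrays supported on a box, all forms of which are hyperbolic
-/

open Finset Matrix

namespace Pool.UC86

variable {ι : Type*} [Fintype ι] [DecidableEq ι]

/-- The form of the array `a` at `κ`. -/
def form (a : (ι → ℕ) → ℝ) (κ : ι → ℕ) : Matrix ι ι ℝ :=
  Matrix.of fun i j => a (κ + Pi.single i 1 + Pi.single j 1)

omit [Fintype ι] in
theorem form_apply (a : (ι → ℕ) → ℝ) (κ : ι → ℕ) (i j : ι) :
    form a κ i j = a (κ + Pi.single i 1 + Pi.single j 1) := rfl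

/-- The derivative of the array `a` in the direction `u`. -/
def Du (u : ι → ℝ) (a : (ι → ℕ) → ℝ) : (ι → ℕ) → ℝ :=
  fun κ => ∑ i, u i * a (κ + Pi.single i 1)

theorem sum_add_single (κ : ι → ℕ) (i : ι) :
    ∑ j, (κ + Pi.single i 1 : ι → ℕ) j = ∑ j, κ j + 1 := by
  simp only [Pi.add_apply, Finset.sum_add_distrib]
  congr 1
  rw [Finset.sum_eq_single i (fun j _ hj => Pi.single_eq_of_ne hj 1)
    (fun h => absurd (Finset.mem_univ i) h), Pi.single_eq_same]

/-- Arrays of degree `N`, positive exactly on the box `β`, all of whose forms are hyperbolic. -/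
structure BL (β : ι → ℕ) (N : ℕ) (a : (ι → ℕ) → ℝ) : Prop where
  pos : ∀ κ : ι → ℕ, ∑ i, κ i = N → κ ≤ β → 0 < a κ
  zero : ∀ κ : ι → ℕ, ¬ κ ≤ β → a κ = 0
  af : ∀ κ : ι → ℕ, ∑ i, κ i + 2 = N → AF (form a κ)

theorem BL.nonneg {β : ι → ℕ} {N : ℕ} {a : (ι → ℕ) → ℝ} (h : BL β N a) {κ : ι → ℕ}
    (hκ : ∑ i, κ i = N) : 0 ≤ a κ := by
  by_cases h1 : κ ≤ β
  · exact (h.pos κ hκ h1).le
  · exact (h.zero κ h1).ge

theorem exists_room {β κ : ι → ℕ} (h : κ ≤ β) (hs : ∑ i, κ i < ∑ i, β i) :
    ∃ i, κ + Pi.single i 1 ≤ β := by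
  obtain ⟨i, -, hi⟩ := Finset.exists_lt_of_sum_lt hs
  refine ⟨i, fun j => ?_⟩
  rw [Pi.add_apply]
  by_cases hj : j = i
  · subst hj
    rw [Pi.single_eq_same]
    exact hi
  · rw [Pi.single_eq_of_ne hj, add_zero]
    exact h j

omit [Fintype ι] in
theorem le_of_add_single {β κ : ι → ℕ} {i : ι} (h : κ + Pi.single i 1 ≤ β) : κ ≤ β :=
  fun j => le_trans (by rw [Pi.add_apply]; exact Nat.le_add_right _ _) (h j)

/-- The class is closed under derivatives in positive directions. -/
theorem BL.deriv {β : ι → ℕ} {N : ℕ} {a : (ι → ℕ) → ℝ} (h : BL β (N + 1) a)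
    (hN : N + 1 ≤ ∑ i, β i) {u : ι → ℝ} (hu : ∀ i, 0 < u i) : BL β N (Du u a) := by
  refine ⟨fun κ hκ hβ => ?_, fun κ hβ => ?_, fun κ hκ => ?_⟩
  · obtain ⟨i, hi⟩ := exists_room hβ (by omega)
    refine Finset.sum_pos' (fun j _ => ?_) ⟨i, Finset.mem_univ _, ?_⟩
    · exact mul_nonneg (hu j).le (h.nonneg (by rw [sum_add_single, hκ]))
    · exact mul_pos (hu i) (h.pos _ (by rw [sum_add_single, hκ]) hi)
  · refine Finset.sum_eq_zero fun j _ => ?_
    rw [h.zero _ (fun h' => hβ (le_of_add_single h')), mul_zero]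
  · have e : form (Du u a) κ = con (fun k => form a (κ + Pi.single k 1)) u := by
      ext i j
      rw [con_apply, form_apply, Du]
      refine Finset.sum_congr rfl fun k _ => ?_
      rw [form_apply]
      congr 2
      abel
    rw [e]
    have hs : ∀ i j k : ι, ∑ m, (κ + Pi.single i 1 + Pi.single j 1 + Pi.single k 1 : ι → ℕ) m
        = N + 1 := by
      intro i j k
      rw [sum_add_single, sum_add_single, sum_add_single]
      omega
    refine tri (fun i j k => ?_) (fun i j k => ?_) (fun i j k => ?_) hu (fun i j hij hi hj => ?_)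
      (fun i => h.af _ (by rw [sum_add_single]; omega))
    · simp only [form_apply]
      congr 1
      abel
    · simp only [form_apply]
      congr 1
      abel
    · exact h.nonneg (hs i j k)
    · obtain ⟨k1, l1, h1⟩ := hi
      obtain ⟨k2, l2, h2⟩ := hj
      have hi' : κ + Pi.single i 1 ≤ β := by
        by_contra hcon
        rw [form_apply, h.zero _ (fun h' => hcon (le_of_add_single (le_of_add_single h')))] at h1
        exact lt_irrefl _ h1
      have hj' : κ + Pi.single j 1 ≤ β := by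
        by_contra hcon
        rw [form_apply, h.zero _ (fun h' => hcon (le_of_add_single (le_of_add_single h')))] at h2
        exact lt_irrefl _ h2
      have hij' : κ + Pi.single i 1 + Pi.single j 1 ≤ β := by
        intro m
        rw [Pi.add_apply]
        by_cases hm : m = j
        · subst hm
          have := hj' m
          rw [Pi.add_apply, Pi.single_eq_same] at this
          rw [Pi.add_apply, Pi.single_eq_same, Pi.single_eq_of_ne (Ne.symm hij)]
          omega
        · rw [Pi.single_eq_of_ne hm, add_zero]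
          exact hi' m
      obtain ⟨k, hk⟩ := exists_room hij' (by
        rw [sum_add_single, sum_add_single]
        omega)
      exact ⟨k, h.pos _ (hs i j k) hk⟩

theorem BL.iter {β : ι → ℕ} {a : (ι → ℕ) → ℝ} {u : ι → ℝ} (hu : ∀ i, 0 < u i) {N : ℕ} :
    ∀ k : ℕ, BL β (N + k) a → N + k ≤ ∑ i, β i → BL β N ((Du u)^[k] a) := by
  intro k
  induction k generalizing a with
  | zero => intro h _; exact h
  | succ k ih =>
    intro h hN
    rw [Function.iterate_succ_apply]
    exact ih (h.deriv (by rw [← add_assoc] at hN; exact hN) hu) (by omega)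

theorem Du_comm (u v : ι → ℝ) : Function.Commute (Du u) (Du v) := by
  intro a
  funext κ
  simp only [Du, Finset.mul_sum]
  rw [Finset.sum_comm]
  refine Finset.sum_congr rfl fun i _ => Finset.sum_congr rfl fun j _ => ?_
  rw [add_right_comm]
  ring

/-- The mixed values of the array. -/
def TT (u v : ι → ℝ) (a : (ι → ℕ) → ℝ) (k l : ℕ) : ℝ := ((Du u)^[k] ((Du v)^[l] a)) 0

theorem BL.lc {β : ι → ℕ} {a : (ι → ℕ) → ℝ} {u v : ι → ℝ} (hu : ∀ i, 0 < u i)
    (hv : ∀ i, 0 < v i) {k l : ℕ} (h : BL β (k + l + 2) a) (hN : k + l + 2 ≤ ∑ i, β i) :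
    TT u v a (k + 2) l * TT u v a k (l + 2) ≤ TT u v a (k + 1) (l + 1) ^ 2 := by
  set b := (Du u)^[k] ((Du v)^[l] a) with hb
  have h1 : BL β 2 b := by
    apply BL.iter hu k
    · apply BL.iter hv l
      · rw [show 2 + k + l = k + l + 2 by ring]
        exact h
      · omega
    · omega
  have q : ∀ x y : ι → ℝ, x ⬝ᵥ form b 0 *ᵥ y = Du x (Du y b) 0 := by
    intro x y
    simp only [mulVec, dotProduct, Du, form_apply]
    refine Finset.sum_congr rfl fun i _ => ?_
    congr 1
    refine Finset.sum_congr rfl fun j _ => ?_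
    rw [mul_comm]
  have e1 : TT u v a (k + 2) l = Du u (Du u b) 0 := by
    rw [TT, Function.iterate_succ_apply', Function.iterate_succ_apply']
  have e2 : TT u v a (k + 1) (l + 1) = Du u (Du v b) 0 := by
    rw [TT, Function.iterate_succ_apply', Function.iterate_succ_apply' (Du v),
      ((Du_comm u v).iterate_left k).eq]
  have e3 : TT u v a k (l + 2) = Du v (Du v b) 0 := by
    rw [TT, Function.iterate_succ_apply' (Du v), Function.iterate_succ_apply' (Du v),
      ((Du_comm u v).iterate_left k).eq, ((Du_comm u v).iterate_left k).eq]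
  rw [e1, e2, e3, ← q, ← q, ← q]
  exact h1.af 0 (by simp) u v (fun i => (hu i).le)

theorem Du_cont {b : ℝ → (ι → ℕ) → ℝ} {u : ℝ → ι → ℝ} (hb : ∀ κ, Continuous fun t => b t κ)
    (hu : ∀ i, Continuous fun t => u t i) (κ : ι → ℕ) : Continuous fun t => Du (u t) (b t) κ := by
  unfold Du
  exact continuous_finsetSum _ fun i _ => (hu i).mul (hb _)

theorem Du_iter_cont {u : ℝ → ι → ℝ} (hu : ∀ i, Continuous fun t => u t i) (k : ℕ) :
    ∀ {b : ℝ → (ι → ℕ) → ℝ}, (∀ κ, Continuous fun t => b t κ) → ∀ κ : ι → ℕ,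
      Continuous fun t => (Du (u t))^[k] (b t) κ := by
  induction k with
  | zero => intro b hb κ; exact hb κ
  | succ k ih =>
    intro b hb κ
    simp only [Function.iterate_succ_apply]
    exact ih (fun κ => Du_cont hb hu κ) κ

theorem TT_cont {u v : ℝ → ι → ℝ} (hu : ∀ i, Continuous fun t => u t i)
    (hv : ∀ i, Continuous fun t => v t i) {a : ℝ → (ι → ℕ) → ℝ}
    (ha : ∀ κ, Continuous fun t => a t κ) (k l : ℕ) :
    Continuous fun t => TT (u t) (v t) (a t) k l :=
  Du_iter_cont hu k (fun κ => Du_iter_cont hv l ha κ) 0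

/-- The same with nonnegative directions. -/
theorem BL.lc0 {β : ι → ℕ} {a : (ι → ℕ) → ℝ} {u v : ι → ℝ} (hu : ∀ i, 0 ≤ u i)
    (hv : ∀ i, 0 ≤ v i) {k l : ℕ} (h : BL β (k + l + 2) a) (hN : k + l + 2 ≤ ∑ i, β i) :
    TT u v a (k + 2) l * TT u v a k (l + 2) ≤ TT u v a (k + 1) (l + 1) ^ 2 := by
  have hc : ∀ i j : ℕ, Continuous fun t : ℝ =>
      TT (fun m => u m + t) (fun m => v m + t) a i j := fun i j =>
    TT_cont (u := fun t m => u m + t) (v := fun t m => v m + t) (a := fun _ => a)
      (fun i => by fun_prop) (fun i => by fun_prop) (fun κ => continuous_const) i j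
  have key : ∀ t : ℝ, 0 < t → TT (fun m => u m + t) (fun m => v m + t) a (k + 2) l *
      TT (fun m => u m + t) (fun m => v m + t) a k (l + 2) ≤
      TT (fun m => u m + t) (fun m => v m + t) a (k + 1) (l + 1) ^ 2 := fun t ht =>
    BL.lc (fun i => by have := hu i; linarith) (fun i => by have := hv i; linarith) h hN
  have t1 := ((hc (k + 2) l).mul (hc k (l + 2))).tendsto 0
  have t2 := ((hc (k + 1) (l + 1)).pow 2).tendsto 0
  have t1' := t1.mono_left (nhdsWithin_le_nhds (s := Set.Ioi 0))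
  have t2' := t2.mono_left (nhdsWithin_le_nhds (s := Set.Ioi 0))
  have := le_of_tendsto_of_tendsto t1' t2' (by
    filter_upwards [self_mem_nhdsWithin] with t ht
    exact key t ht)
  simpa using this

end Pool.UC86
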