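import Pool.Agent.UC86.Seq

set_option autoImplicit false

/-!
# UC86/Clo: the product of two ultra-log-concave expansions is ultra-log-concave
-/

open Finset Matrix
open scoped Nat

namespace Pool.UC86

/-- Ultra-log-concavity of order `r`: `f k / choose r k` is log-concave. -/
def Ulc (r : ℕ) (f : ℕ → ℝ) : Prop :=
  ∀ i j : ℕ, i + j + 2 = r →
    ((i : ℝ) + 2) * ((j : ℝ) + 2) * (f i * f (i + 2)) ≤
      ((i : ℝ) + 1) * ((j : ℝ) + 1) * f (i + 1) ^ 2

theorem Gg_ok {s : ℕ} {g : ℕ → ℝ} (hp : ∀ i, i ≤ s → 0 < g i) (hu : Ulc s g) :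
    Ok s (Gg s g) := by
  refine ⟨fun c hc => ?_, fun c hc => ?_, fun c hc => ?_⟩
  · unfold Gg
    rw [if_pos hc]
    have := hp c hc
    positivity
  · unfold Gg
    rw [if_neg (not_le.2 hc)]
  · unfold Gg
    by_cases h2 : c + 2 ≤ s
    · rw [if_pos hc, if_pos h2, if_pos (by omega)]
      obtain ⟨j, rfl⟩ := Nat.exists_eq_add_of_le h2
      have h := hu c j (by ring)
      have e1 : c + 2 + j - c = j + 2 := by omega
      rw [e1, fac2, fac1]
      push_cast
      have hpos : (0 : ℝ) ≤ ((c : ℝ) + 1) * (c ! : ℝ) ^ 2 := by positivity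
      have := mul_le_mul_of_nonneg_left h hpos
      nlinarith [this]
    · rw [if_neg h2, mul_zero, mul_zero]
      by_cases h1 : c + 1 ≤ s
      · have e1 : s - c = 1 := by omega
        rw [e1]
        simp
      · rw [if_neg h1]
        simp

theorem Ff_ok {r : ℕ} {f : ℕ → ℝ} (hp : ∀ i, i ≤ r → 0 < f i) (hu : Ulc r f) :
    Ok r (Ff r f) := by
  have h1 : ∀ i, i ≤ r → 0 < f (r - i) := fun i _ => hp _ (Nat.sub_le _ _)
  have h2 : Ulc r (fun i => f (r - i)) := by
    intro i j hij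
    have h := hu j i (by omega)
    simp only
    rw [show r - i = j + 2 by omega, show r - (i + 2) = j by omega,
      show r - (i + 1) = j + 1 by omega]
    linarith
  exact Gg_ok h1 h2

/-- The positive case. -/
theorem closure_pos {p q r s δ : ℕ} {f g : ℕ → ℝ} (hr : r + δ = p) (hs : s ≤ q)
    (hf : ∀ i, i ≤ r → 0 < f i) (hg : ∀ i, i ≤ s → 0 < g i) (hfu : Ulc r f) (hgu : Ulc s g) :
    Ulc (q + r) (hh p q r s f g) := by
  intro k l hkl
  have hBL := arr_BL (p := p) (q := q) (δ := δ) (Ff_ok hf hfu) (Gg_ok hg hgu) hr hs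
  rw [← hkl] at hBL
  have hlc := BL.lc0 (u := u0) (v := v0) (fun i => by fin_cases i <;> simp [u0])
    (fun i => by fin_cases i <;> simp [v0]) hBL (by
      rw [Fin.sum_univ_four]
      simp only [Matrix.cons_val_zero, Matrix.cons_val_one, Matrix.cons_val]
      omega)
  rw [TT_hh f g hr hs (by omega), TT_hh f g hr hs (by omega), TT_hh f g hr hs (by omega), fac2,
    fac2, fac1, fac1] at hlc
  have hpos : (0 : ℝ) < ((k : ℝ) + 1) * ((l : ℝ) + 1) * ((k ! : ℝ) * (l ! : ℝ)) ^ 2 := by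
    positivity
  refine le_of_mul_le_mul_left ?_ hpos
  calc ((k : ℝ) + 1) * ((l : ℝ) + 1) * ((k ! : ℝ) * (l ! : ℝ)) ^ 2 *
      (((k : ℝ) + 2) * ((l : ℝ) + 2) * (hh p q r s f g k * hh p q r s f g (k + 2)))
      = ((k : ℝ) + 2) * (((k : ℝ) + 1) * (k ! : ℝ)) * (l ! : ℝ) * hh p q r s f g (k + 2) *
        ((k ! : ℝ) * (((l : ℝ) + 2) * (((l : ℝ) + 1) * (l ! : ℝ))) * hh p q r s f g k) := by ring
    _ ≤ (((k : ℝ) + 1) * (k ! : ℝ) * (((l : ℝ) + 1) * (l ! : ℝ)) *
        hh p q r s f g (k + 1)) ^ 2 := hlc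
    _ = ((k : ℝ) + 1) * ((l : ℝ) + 1) * ((k ! : ℝ) * (l ! : ℝ)) ^ 2 *
      (((k : ℝ) + 1) * ((l : ℝ) + 1) * hh p q r s f g (k + 1) ^ 2) := by ring

/-- Approximation of a sequence with trailing zeros. -/
theorem exists_approx {r : ℕ} {f : ℕ → ℝ} (h0 : 0 < f 0) (hnn : ∀ i, 0 ≤ f i)
    (hz : ∀ i, r < i → f i = 0) (hgap : ∀ i, f (i + 1) ≠ 0 → f i ≠ 0) (hu : Ulc r f) :
    ∃ F : ℝ → ℕ → ℝ, (∀ i, Continuous fun t => F t i) ∧ F 0 = f ∧
      ∃ t0 : ℝ, 0 < t0 ∧ ∀ t, 0 < t → t < t0 → (∀ i, i ≤ r → 0 < F t i) ∧ Ulc r (F t) := by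
  classical
  -- the last nonzero index
  have hex : ∃ i, f (i + 1) = 0 := ⟨r, hz _ (Nat.lt_succ_self r)⟩
  set d := Nat.find hex with hd
  have hd1 : f (d + 1) = 0 := Nat.find_spec hex
  have hd2 : ∀ i, i ≤ d → 0 < f i := by
    intro i hi
    rcases Nat.eq_zero_or_pos i with rfl | hi0
    · exact h0
    · obtain ⟨j, rfl⟩ := Nat.exists_eq_add_of_lt hi0
      rw [zero_add] at hi ⊢
      have := Nat.find_min hex (m := j) (by omega)
      exact lt_of_le_of_ne (hnn _) (Ne.symm this)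
  have hd3 : ∀ i, d < i → f i = 0 := by
    intro i hi
    induction i, hi using Nat.le_induction with
    | base => exact hd1
    | succ n _ ih =>
      by_contra hcon
      exact hgap n hcon ih
  have hdr : d ≤ r := by
    by_contra hcon
    have := hz d (not_le.1 hcon)
    have := hd2 d le_rfl
    linarith
  -- the normalized sequence
  set ph : ℕ → ℝ := fun i => f i / (r.choose i : ℝ) with hph
  have hch : ∀ i, i ≤ r → (0 : ℝ) < (r.choose i : ℝ) := fun i hi => by
    exact_mod_cast Nat.choose_pos hi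
  have hphpos : ∀ i, i ≤ d → 0 < ph i := fun i hi => div_pos (hd2 i hi) (hch i (by omega))
  -- choose relation
  have hcr : ∀ i j : ℕ, i + j + 2 = r → ((i : ℝ) + 2) * ((j : ℝ) + 2) *
      ((r.choose i : ℝ) * (r.choose (i + 2) : ℝ)) =
      ((i : ℝ) + 1) * ((j : ℝ) + 1) * (r.choose (i + 1) : ℝ) ^ 2 := by
    intro i j hij
    have h1 := Nat.choose_succ_right_eq r i
    have h2 := Nat.choose_succ_right_eq r (i + 1)
    rw [show r - i = j + 2 by omega] at h1
    rw [show r - (i + 1) = j + 1 by omega] at h2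
    have h1' : (r.choose (i + 1) : ℝ) * ((i : ℝ) + 1) = (r.choose i : ℝ) * ((j : ℝ) + 2) := by
      exact_mod_cast h1
    have h2' : (r.choose (i + 2) : ℝ) * ((i : ℝ) + 2) = (r.choose (i + 1) : ℝ) * ((j : ℝ) + 1) := by
      have : (r.choose (i + 1 + 1) : ℝ) * (((i + 1 + 1 : ℕ) : ℝ)) =
        (r.choose (i + 1) : ℝ) * (((j + 1 : ℕ) : ℝ)) := by exact_mod_cast h2
      push_cast at this
      rw [show i + 1 + 1 = i + 2 by ring] at this
      linarith
    calc ((i : ℝ) + 2) * ((j : ℝ) + 2) * ((r.choose i : ℝ) * (r.choose (i + 2) : ℝ))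
        = ((r.choose i : ℝ) * ((j : ℝ) + 2)) * ((r.choose (i + 2) : ℝ) * ((i : ℝ) + 2)) := by ring
      _ = ((r.choose (i + 1) : ℝ) * ((i : ℝ) + 1)) *
          ((r.choose (i + 1) : ℝ) * ((j : ℝ) + 1)) := by rw [h1', h2']
      _ = _ := by ring
  have hfph : ∀ i, i ≤ r → f i = (r.choose i : ℝ) * ph i := fun i hi => by
    simp only [hph]
    have := (hch i hi).ne'
    field_simp
  -- log-concavity of `ph`
  have hphlc : ∀ i, i + 2 ≤ r → ph i * ph (i + 2) ≤ ph (i + 1) ^ 2 := by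
    intro i hi
    obtain ⟨j, hj⟩ := Nat.exists_eq_add_of_le hi
    have hij : i + j + 2 = r := by omega
    have h := hu i j hij
    rw [hfph i (by omega), hfph (i + 1) (by omega), hfph (i + 2) (by omega)] at h
    have h1 := hcr i j hij
    have hpos : (0 : ℝ) < ((i : ℝ) + 1) * ((j : ℝ) + 1) * (r.choose (i + 1) : ℝ) ^ 2 := by
      have := hch (i + 1) (by omega)
      positivity
    refine le_of_mul_le_mul_left ?_ hpos
    calc ((i : ℝ) + 1) * ((j : ℝ) + 1) * (r.choose (i + 1) : ℝ) ^ 2 * (ph i * ph (i + 2))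
        = ((i : ℝ) + 2) * ((j : ℝ) + 2) * ((r.choose i : ℝ) * ph i *
          ((r.choose (i + 2) : ℝ) * ph (i + 2))) := by rw [← h1]; ring
      _ ≤ _ := h
      _ = _ := by ring
  refine ⟨fun t i => (r.choose i : ℝ) * (ph (min i d) * t ^ (i - d)), fun i => by fun_prop, ?_, ?_⟩
  · funext i
    show (r.choose i : ℝ) * (ph (min i d) * (0 : ℝ) ^ (i - d)) = f i
    rcases le_or_gt i d with hi | hi
    · rw [min_eq_left hi, Nat.sub_eq_zero_of_le hi, pow_zero, mul_one, ← hfph i (by omega)]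
    · rw [zero_pow (Nat.sub_ne_zero_of_lt hi), mul_zero, mul_zero, hd3 i hi]
  · -- the bound
    obtain ⟨t0, ht0, hlast⟩ : ∃ t0 : ℝ, 0 < t0 ∧ ∀ t, 0 < t → t < t0 → ∀ i, i + 1 = d →
        ph i * t ≤ ph (i + 1) := by
      rcases Nat.eq_zero_or_pos d with h | h
      · exact ⟨1, one_pos, fun t _ _ i hi => by omega⟩
      · obtain ⟨e, he⟩ := Nat.exists_eq_add_of_lt h
        rw [zero_add] at he
        have p1 := hphpos e (by omega)
        have p2 := hphpos (e + 1) (by omega)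
        refine ⟨ph (e + 1) / ph e, div_pos p2 p1, fun t _ ht i hi => ?_⟩
        have : i = e := by omega
        subst this
        rw [lt_div_iff₀ p1] at ht
        linarith
    refine ⟨t0, ht0, fun t ht1 ht2 => ⟨fun i hi => ?_, fun i j hij => ?_⟩⟩
    · have := hch i hi
      have := hphpos (min i d) (min_le_right _ _)
      positivity
    · have h1 := hcr i j hij
      have key : (ph (min i d) * t ^ (i - d)) * (ph (min (i + 2) d) * t ^ (i + 2 - d)) ≤
          (ph (min (i + 1) d) * t ^ (i + 1 - d)) ^ 2 := by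
        rcases lt_trichotomy (i + 1) d with h | h | h
        · rw [min_eq_left (by omega), min_eq_left (by omega), min_eq_left (by omega),
            show i - d = 0 by omega, show i + 2 - d = 0 by omega, show i + 1 - d = 0 by omega]
          simp only [pow_zero, mul_one]
          exact hphlc i (by omega)
        · rw [min_eq_left (by omega), min_eq_right (by omega), min_eq_left (by omega),
            show i - d = 0 by omega, show i + 2 - d = 1 by omega, show i + 1 - d = 0 by omega, ← h]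
          simp only [pow_zero, mul_one, pow_one]
          have h2 := hlast t ht1 ht2 i h
          have h3 := hphpos (i + 1) (by omega)
          calc ph i * (ph (i + 1) * t) = ph i * t * ph (i + 1) := by ring
            _ ≤ ph (i + 1) * ph (i + 1) := mul_le_mul_of_nonneg_right h2 h3.le
            _ = ph (i + 1) ^ 2 := by ring
        · rw [min_eq_right (by omega), min_eq_right (by omega), min_eq_right (by omega),
            show i + 2 - d = (i - d) + 2 by omega, show i + 1 - d = (i - d) + 1 by omega]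
          apply le_of_eq
          ring
      have hpos : (0 : ℝ) ≤ ((i : ℝ) + 1) * ((j : ℝ) + 1) * (r.choose (i + 1) : ℝ) ^ 2 := by
        positivity
      calc ((i : ℝ) + 2) * ((j : ℝ) + 2) * ((r.choose i : ℝ) * (ph (min i d) * t ^ (i - d)) *
          ((r.choose (i + 2) : ℝ) * (ph (min (i + 2) d) * t ^ (i + 2 - d))))
          = (((i : ℝ) + 2) * ((j : ℝ) + 2) * ((r.choose i : ℝ) * (r.choose (i + 2) : ℝ))) *
            ((ph (min i d) * t ^ (i - d)) * (ph (min (i + 2) d) * t ^ (i + 2 - d))) := by ring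
        _ = ((i : ℝ) + 1) * ((j : ℝ) + 1) * (r.choose (i + 1) : ℝ) ^ 2 *
            ((ph (min i d) * t ^ (i - d)) * (ph (min (i + 2) d) * t ^ (i + 2 - d))) := by rw [h1]
        _ ≤ ((i : ℝ) + 1) * ((j : ℝ) + 1) * (r.choose (i + 1) : ℝ) ^ 2 *
            (ph (min (i + 1) d) * t ^ (i + 1 - d)) ^ 2 := mul_le_mul_of_nonneg_left key hpos
        _ = _ := by ring

theorem hh_cont {p q r s : ℕ} {f g : ℝ → ℕ → ℝ} (hf : ∀ i, Continuous fun t => f t i)
    (hg : ∀ i, Continuous fun t => g t i) (k : ℕ) :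
    Continuous fun t => hh p q r s (f t) (g t) k := by
  unfold hh
  exact continuous_finsetSum _ fun i _ => continuous_finsetSum _ fun j _ =>
    ((hf i).mul (hg j)).mul continuous_const

/-- **Closure**: ultra-log-concave expansions are closed under products. -/
theorem closure {p q r s : ℕ} {f g : ℕ → ℝ} (hr : r ≤ p) (hs : s ≤ q)
    (hf0 : 0 < f 0) (hf : ∀ i, 0 ≤ f i) (hfz : ∀ i, r < i → f i = 0)
    (hfg : ∀ i, f (i + 1) ≠ 0 → f i ≠ 0) (hfu : Ulc r f)
    (hg0 : 0 < g 0) (hg : ∀ i, 0 ≤ g i) (hgz : ∀ i, s < i → g i = 0)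
    (hgg : ∀ i, g (i + 1) ≠ 0 → g i ≠ 0) (hgu : Ulc s g) :
    Ulc (q + r) (hh p q r s f g) := by
  obtain ⟨δ, rfl⟩ := Nat.exists_eq_add_of_le hr
  obtain ⟨F, hFc, hF0, t1, ht1, hF⟩ := exists_approx hf0 hf hfz hfg hfu
  obtain ⟨G, hGc, hG0, t2, ht2, hG⟩ := exists_approx hg0 hg hgz hgg hgu
  intro k l hkl
  have hc := hh_cont (p := r + δ) (q := q) (r := r) (s := s) hFc hGc
  have key : ∀ t : ℝ, 0 < t → t < min t1 t2 → ((k : ℝ) + 2) * ((l : ℝ) + 2) *
      (hh (r + δ) q r s (F t) (G t) k * hh (r + δ) q r s (F t) (G t) (k + 2)) ≤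
      ((k : ℝ) + 1) * ((l : ℝ) + 1) * hh (r + δ) q r s (F t) (G t) (k + 1) ^ 2 := by
    intro t h1 h2
    obtain ⟨a1, a2⟩ := hF t h1 (h2.trans_le (min_le_left _ _))
    obtain ⟨b1, b2⟩ := hG t h1 (h2.trans_le (min_le_right _ _))
    exact closure_pos rfl hs a1 b1 a2 b2 k l hkl
  have t3 := (((hc k).mul (hc (k + 2))).const_mul (((k : ℝ) + 2) * ((l : ℝ) + 2))).tendsto 0
  have t4 := (((hc (k + 1)).pow 2).const_mul (((k : ℝ) + 1) * ((l : ℝ) + 1))).tendsto 0
  have t3' := t3.mono_left (nhdsWithin_le_nhds (s := Set.Ioi 0))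
  have t4' := t4.mono_left (nhdsWithin_le_nhds (s := Set.Ioi 0))
  have h3 := le_of_tendsto_of_tendsto t3' t4' (by
    filter_upwards [self_mem_nhdsWithin, Ioo_mem_nhdsGT (lt_min ht1 ht2)] with t _ ht
    exact key t ht.1 ht.2)
  simp only [Pi.mul_apply, Pi.pow_apply, hF0, hG0] at h3
  exact h3

end Pool.UC86
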