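import Pool.Agent.UC86.Prod
import Pool.Agent.DU31.Final

set_option autoImplicit false

/-!
# UC86/Pos: descents of linear extensions of disjoint unions
-/

open Finset Polynomial Pool.GT34 Pool.DU31

namespace Pool.UC86

section Gap

variable {α : Type} [PartialOrder α] {lab : α → ℕ}

/-- Erasing the element with the largest label. -/
lemma mem_LR_max {S : Finset α} {x : α} [DecidableEq α] (hx : ∀ b ∈ S, lab b < lab x)
    {r' : List α} (h : r' ∈ LR (insert x S)) :
    ∃ pre post, r' = pre ++ x :: post ∧ pre ++ post ∈ LR S := by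
  have hxS : x ∉ S := fun h => lt_irrefl _ (hx x h)
  rw [mem_LR] at h
  obtain ⟨h1, h2, h3⟩ := h
  have hx' : x ∈ r' := (h2 x).2 (Finset.mem_insert_self _ _)
  obtain ⟨pre, post, rfl⟩ := List.append_of_mem hx'
  have hperm : (pre ++ x :: post).Perm (x :: (pre ++ post)) := List.perm_middle
  have h4 := hperm.nodup_iff.1 h1
  rw [List.nodup_cons] at h4
  have hsub : (pre ++ post).Sublist (pre ++ x :: post) :=
    List.Sublist.append (List.Sublist.refl _) (List.sublist_cons_self _ _)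
  refine ⟨pre, post, rfl, ?_⟩
  rw [mem_LR]
  refine ⟨h4.2, fun z => ⟨fun hz => ?_, fun hz => ?_⟩, h3.sublist hsub⟩
  · have h5 := (h2 z).1 (hsub.subset hz)
    rcases Finset.mem_insert.1 h5 with rfl | h6
    · exact absurd hz h4.1
    · exact h6
  · have h5 := (h2 z).2 (Finset.mem_insert_of_mem hz)
    rcases List.mem_cons.1 (hperm.subset h5) with rfl | h6
    · exact absurd hz hxS
    · exact h6

lemma cons_mem_LR (hnat : ∀ x y : α, x < y → lab x < lab y) {S : Finset α} {x : α}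
    [DecidableEq α] (hx : ∀ b ∈ S, lab b < lab x) {r : List α} (h : r ∈ LR S) :
    x :: r ∈ LR (insert x S) := by
  have hxS : x ∉ S := fun h => lt_irrefl _ (hx x h)
  rw [mem_LR] at h ⊢
  obtain ⟨h1, h2, h3⟩ := h
  refine ⟨List.nodup_cons.2 ⟨fun h => hxS ((h2 x).1 h), h1⟩, fun z => ?_, ?_⟩
  · rw [List.mem_cons, h2, Finset.mem_insert]
  · rw [List.pairwise_cons]
    refine ⟨fun v hv hlt => ?_, h3⟩
    have h5 := hnat _ _ hlt
    have h6 := hx v ((h2 v).1 hv)
    omega

/-- No internal zeros, for all natural labellings. -/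
lemma no_gap_nat (hlab : Function.Injective lab) (hnat : ∀ x y : α, x < y → lab x < lab y)
    [DecidableEq α] (S : Finset α) :
    ∀ r ∈ LR S, ∀ k ≤ desR lab r, ∃ r' ∈ LR S, desR lab r' = k := by
  induction S using Finset.induction_on_max_value lab with
  | empty =>
    intro r hr k hk
    rw [LR_empty, Finset.mem_singleton] at hr
    subst hr
    exact ⟨[], by rw [LR_empty, Finset.mem_singleton], by
      have : desR lab ([] : List α) = 0 := rfl
      omega⟩
  | insert a S ha hS ih =>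
    have hx : ∀ b ∈ S, lab b < lab a := fun b hb =>
      lt_of_le_of_ne (hS b hb) fun h => ha (hlab h ▸ hb)
    intro r' hr' k hk
    obtain ⟨pre, post, e2, hr⟩ := mem_LR_max hx hr'
    have hlt : ∀ r ∈ LR S, ∀ b ∈ r, lab b < lab a := fun r hr b hb =>
      hx b ((((mem_LR S r).1 hr).2.1 b).1 hb)
    have h2 : desR lab r' ≤ desR lab (pre ++ post) + 1 := by
      rw [e2]
      exact desR_ins pre (hlt _ hr)
    by_cases h3 : k ≤ desR lab (pre ++ post)
    · obtain ⟨r1, hr1, h4⟩ := ih _ hr k h3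
      exact ⟨a :: r1, cons_mem_LR hnat hx hr1, by rw [desR_cons_max (hlt r1 hr1), h4]⟩
    · exact ⟨r', hr', by omega⟩

lemma exists_zero (hlab : Function.Injective lab) (hnat : ∀ x y : α, x < y → lab x < lab y)
    [DecidableEq α] (S : Finset α) : ∃ r ∈ LR S, desR lab r = 0 := by
  induction S using Finset.induction_on_max_value lab with
  | empty => exact ⟨[], by rw [LR_empty, Finset.mem_singleton], rfl⟩
  | insert a S ha hS ih =>
    have hx : ∀ b ∈ S, lab b < lab a := fun b hb =>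
      lt_of_le_of_ne (hS b hb) fun h => ha (hlab h ▸ hb)
    have hlt : ∀ r ∈ LR S, ∀ b ∈ r, lab b < lab a := fun r hr b hb =>
      hx b ((((mem_LR S r).1 hr).2.1 b).1 hb)
    obtain ⟨r, hr, h⟩ := ih
    exact ⟨a :: r, cons_mem_LR hnat hx hr, by rw [desR_cons_max (hlt r hr), h]⟩

end Gap

section Num

variable {α : Type} [Fintype α] [PartialOrder α]

lemma coeff_W_LR [Nonempty α] (lab : α → ℕ) (k : ℕ) :
    (W (Dl (fun x : α => (lab x : ℤ))) Finset.univ).coeff k =
      ((LR (Finset.univ : Finset α)).filter (fun r => desR lab r = k)).card := by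
  classical
  rw [W_eq_LR Finset.univ_nonempty, finsetSum_coeff, Finset.card_filter]
  refine Finset.sum_congr rfl fun l _ => ?_
  rw [coeff_X_pow]
  by_cases h : desR lab l = k
  · rw [if_pos h, if_pos h.symm]
  · rw [if_neg h, if_neg (Ne.symm h)]

omit [PartialOrder α] in
lemma lab_inj (f : α ≃ Fin (Fintype.card α)) : Function.Injective (fun x => (f x : ℕ)) :=
  fun _ _ h => f.injective (Fin.ext h)

lemma lab_nat {f : α ≃ Fin (Fintype.card α)} (hf : ∀ x y : α, x < y → f x < f y) (x y : α)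
    (h : x < y) : ((f x : ℕ)) < (f y : ℕ) := Fin.lt_def.1 (hf x y h)

lemma wnum_zero_pos [Nonempty α] {f : α ≃ Fin (Fintype.card α)}
    (hf : ∀ x y : α, x < y → f x < f y) : 0 < wnum α f 0 := by
  classical
  rw [show wnum α f 0 = _ from link f 0, coeff_W_LR, Finset.card_pos]
  obtain ⟨r, hr, h⟩ := exists_zero (lab_inj f) (lab_nat hf) Finset.univ
  exact ⟨r, Finset.mem_filter.2 ⟨hr, h⟩⟩

lemma wnum_gap {f : α ≃ Fin (Fintype.card α)}
    (hf : ∀ x y : α, x < y → f x < f y) (k : ℕ) (hk : wnum α f (k + 1) ≠ 0) :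
    wnum α f k ≠ 0 := by
  classical
  rcases isEmpty_or_nonempty α with he | hne
  · exact absurd (wnum_succ_of_isEmpty α f he k) hk
  · rw [show wnum α f (k + 1) = _ from link f (k + 1), coeff_W_LR] at hk
    rw [show wnum α f k = _ from link f k, coeff_W_LR]
    obtain ⟨r, hr⟩ := Finset.card_pos.1 (Nat.pos_of_ne_zero hk)
    rw [Finset.mem_filter] at hr
    obtain ⟨r', hr', h3⟩ := no_gap_nat (lab_inj f) (lab_nat hf) Finset.univ r hr.1 k (by omega)
    exact (Finset.card_pos.2 ⟨r', Finset.mem_filter.2 ⟨hr', h3⟩⟩).ne'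

lemma wnum_high (f : α ≃ Fin (Fintype.card α)) (k : ℕ) (hk : Fintype.card α < k) :
    wnum α f k = 0 := by
  unfold wnum
  have : IsEmpty {σ : Fin (Fintype.card α) ≃ α //
            (∀ i j : Fin (Fintype.card α), σ i < σ j → i < j) ∧
            Nat.card {i : Fin (Fintype.card α) //
              ∃ h : i.val + 1 < Fintype.card α,
                f (σ ⟨i.val + 1, h⟩) < f (σ i)} = k} := by
    constructor
    rintro ⟨σ, -, h2⟩
    have h3 : Nat.card {i : Fin (Fintype.card α) //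
              ∃ h : i.val + 1 < Fintype.card α,
                f (σ ⟨i.val + 1, h⟩) < f (σ i)} ≤ Nat.card (Fin (Fintype.card α)) :=
      Nat.card_le_card_of_injective _ Subtype.val_injective
    have h4 : Nat.card (Fin (Fintype.card α)) = Fintype.card α := by simp
    omega
  exact Nat.card_of_isEmpty

end Num

section Union

variable {α β : Type} [Fintype α] [PartialOrder α] [Fintype β] [PartialOrder β]

omit [Fintype α] [Fintype β] in
/-- Order-preserving maps of a disjoint union. -/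
lemma card_sum (N : ℤ) :
    Nat.card {f : α ⊕ β → ℤ // (∀ x, 0 ≤ f x ∧ f x ≤ N) ∧ ∀ x y, x < y → f x ≤ f y} =
      Nat.card {f : α → ℤ // (∀ x, 0 ≤ f x ∧ f x ≤ N) ∧ ∀ x y, x < y → f x ≤ f y} *
      Nat.card {f : β → ℤ // (∀ x, 0 ≤ f x ∧ f x ≤ N) ∧ ∀ x y, x < y → f x ≤ f y} := by
  rw [← Nat.card_prod]
  refine Nat.card_congr ?_
  refine
    { toFun := fun f => (⟨fun x => f.1 (Sum.inl x), ?_⟩, ⟨fun x => f.1 (Sum.inr x), ?_⟩)
      invFun := fun g => ⟨Sum.elim g.1.1 g.2.1, ?_⟩
      left_inv := ?_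
      right_inv := ?_ }
  · obtain ⟨f, h1, h2⟩ := f
    exact ⟨fun x => h1 _, fun x y hxy => h2 _ _ (Sum.inl_lt_inl_iff.2 hxy)⟩
  · obtain ⟨f, h1, h2⟩ := f
    exact ⟨fun x => h1 _, fun x y hxy => h2 _ _ (Sum.inr_lt_inr_iff.2 hxy)⟩
  · obtain ⟨⟨g, h1, h2⟩, ⟨g', h1', h2'⟩⟩ := g
    refine ⟨fun x => ?_, fun x y hxy => ?_⟩
    · rcases x with x | x
      · exact h1 x
      · exact h1' x
    · rcases x with x | x <;> rcases y with y | y
      · exact h2 _ _ (Sum.inl_lt_inl_iff.1 hxy)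
      · exact absurd hxy Sum.not_inl_lt_inr
      · exact absurd hxy Sum.not_inr_lt_inl
      · exact h2' _ _ (Sum.inr_lt_inr_iff.1 hxy)
  · rintro ⟨f, hf⟩
    simp only [Subtype.mk.injEq]
    funext x
    rcases x with x | x <;> rfl
  · rintro ⟨⟨g, hg⟩, ⟨g', hg'⟩⟩
    rfl

/-- The polynomial of a disjoint union. -/
theorem W_sum [Nonempty α] [Nonempty β] {f : α ≃ Fin (Fintype.card α)}
    {g : β ≃ Fin (Fintype.card β)} {h : α ⊕ β ≃ Fin (Fintype.card (α ⊕ β))}
    (hf : ∀ x y : α, x < y → f x < f y) (hg : ∀ x y : β, x < y → g x < g y)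
    (hh : ∀ x y : α ⊕ β, x < y → h x < h y) {r s : ℕ} (hr : r ≤ Fintype.card α)
    (hs : s ≤ Fintype.card β) (hfr : ∀ i, r < i → wnum α f i = 0)
    (hgs : ∀ i, s < i → wnum β g i = 0) (k : ℕ) :
    wnum (α ⊕ β) h k = ∑ i ∈ range (r + 1), ∑ j ∈ range (s + 1),
      wnum α f i * wnum β g j * cc (Fintype.card α) (Fintype.card β) i j k := by
  have e1 : ∀ i, wnum α f i =
      (W (Dl (fun x => ((f x : ℕ) : ℤ))) (Finset.univ : Finset α)).coeff i := fun i => link f i
  have e2 : ∀ i, wnum β g i =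
      (W (Dl (fun x => ((g x : ℕ) : ℤ))) (Finset.univ : Finset β)).coeff i := fun i => link g i
  have e3 : wnum (α ⊕ β) h k =
      (W (Dl (fun x => ((h x : ℕ) : ℤ))) (Finset.univ : Finset (α ⊕ β))).coeff k := link h k
  simp only [e1] at hfr
  simp only [e2] at hgs
  rw [e3]
  simp only [e1, e2]
  rw [← coeff_prodP hr hs]
  congr 1
  apply ev_inj (p := Fintype.card α + Fintype.card β)
  intro N
  rw [ev_prodP hr hs hfr hgs]
  have i1 : Function.Injective (fun x : α => ((f x : ℕ) : ℤ)) := fun x y hxy =>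
    f.injective (Fin.ext (Nat.cast_injective hxy))
  have i2 : Function.Injective (fun x : β => ((g x : ℕ) : ℤ)) := fun x y hxy =>
    g.injective (Fin.ext (Nat.cast_injective hxy))
  have i3 : Function.Injective (fun x : α ⊕ β => ((h x : ℕ) : ℤ)) := fun x y hxy =>
    h.injective (Fin.ext (Nat.cast_injective hxy))
  rw [← Om_eq_ev _ i1, ← Om_eq_ev _ i2, ← Fintype.card_sum, ← Om_eq_ev _ i3,
    Om_natural _ (fun x y hxy => Nat.cast_lt.2 (Fin.lt_def.1 (hf x y hxy))),
    Om_natural _ (fun x y hxy => Nat.cast_lt.2 (Fin.lt_def.1 (hg x y hxy))),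
    Om_natural _ (fun x y hxy => Nat.cast_lt.2 (Fin.lt_def.1 (hh x y hxy))), card_sum]

/-- `w k / choose (n - d) k` is log-concave, `w` vanishes beyond `n - d`. -/
def UlcN (n d : ℕ) (w : ℕ → ℕ) : Prop :=
  (∀ k, n < k + d → w k = 0) ∧ ∀ k l : ℕ, k + l + 2 + d = n →
    (k + 2) * (l + 2) * (w k * w (k + 2)) ≤ (k + 1) * (l + 1) * w (k + 1) ^ 2

end Union

end Pool.UC86
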