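import Pool.Agent.UC86.Clo
import Pool.Agent.GT34.Uniq

set_option autoImplicit false

/-!
# UC86/Prod: the product of two expansions
-/

open Finset Polynomial Pool.GT34

namespace Pool.UC86

theorem choose_split (m t u : ℕ) : m.choose t * (m - t).choose u = m.choose u * (m - u).choose t := by
  by_cases h : t + u ≤ m
  · have h1 := Nat.choose_mul (n := m) (k := t + u) (s := t) (Nat.le_add_right _ _)
    have h2 := Nat.choose_mul (n := m) (k := t + u) (s := u) (Nat.le_add_left _ _)
    rw [Nat.add_sub_cancel_left] at h1
    rw [Nat.add_sub_cancel] at h2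
    rw [← h1, ← h2]
    congr 1
    exact Nat.choose_symm_add
  · have h1 : m.choose t * (m - t).choose u = 0 := by
      by_cases h2 : t ≤ m
      · rw [Nat.choose_eq_zero_of_lt (show m - t < u by omega), mul_zero]
      · rw [Nat.choose_eq_zero_of_lt (not_le.1 h2), zero_mul]
    have h2 : m.choose u * (m - u).choose t = 0 := by
      by_cases h3 : u ≤ m
      · rw [Nat.choose_eq_zero_of_lt (show m - u < t by omega), mul_zero]
      · rw [Nat.choose_eq_zero_of_lt (not_le.1 h3), zero_mul]
    rw [h1, h2]

/-- Vandermonde with a range sum. -/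
theorem vand (a b k : ℕ) : (a + b).choose k = ∑ t ∈ range (k + 1), a.choose t * b.choose (k - t) := by
  rw [Nat.add_choose_eq, Finset.Nat.sum_antidiagonal_eq_sum_range_succ_mk]

theorem prodId {p q m y : ℕ} (hm : m ≤ p + q) (hy : m ≤ y) :
    y.choose p * (y - m + q).choose q =
      ∑ t ∈ range (q + 1), m.choose t * (p + q - m).choose (q - t) *
        (y + q - t).choose (p + q) := by
  have h1 : ∀ t ∈ range (q + 1), m.choose t * (p + q - m).choose (q - t) *
      (y + q - t).choose (p + q) = ∑ u ∈ range (p + q + 1),
        m.choose u * (y - m + q).choose (p + q - u) *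
          ((m - u).choose t * (p + q - m).choose (q - t)) := by
    intro t _
    by_cases ht : t ≤ m
    · rw [show y + q - t = (m - t) + (y - m + q) by omega, vand, Finset.mul_sum]
      refine Finset.sum_congr rfl fun u _ => ?_
      have := choose_split m t u
      calc m.choose t * (p + q - m).choose (q - t) *
          ((m - t).choose u * (y - m + q).choose (p + q - u))
          = (m.choose t * (m - t).choose u) * ((p + q - m).choose (q - t) *
            (y - m + q).choose (p + q - u)) := by ring
        _ = _ := by rw [this]; ring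
    · rw [Nat.choose_eq_zero_of_lt (not_le.1 ht), zero_mul, zero_mul]
      symm
      refine Finset.sum_eq_zero fun u _ => ?_
      rw [Nat.choose_eq_zero_of_lt (show m - u < t by omega), zero_mul, mul_zero]
  rw [Finset.sum_congr rfl h1, Finset.sum_comm]
  have h2 : ∀ u ∈ range (p + q + 1), ∑ t ∈ range (q + 1),
      m.choose u * (y - m + q).choose (p + q - u) *
          ((m - u).choose t * (p + q - m).choose (q - t)) =
      if u ≤ p then m.choose u * ((y - m + q).choose q * (y - m).choose (p - u)) else 0 := by
    intro u hu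
    rw [Finset.mem_range] at hu
    rw [← Finset.mul_sum, ← vand]
    by_cases hum : u ≤ m
    · rw [show m - u + (p + q - m) = p + q - u by omega]
      by_cases hup : u ≤ p
      · rw [if_pos hup, mul_assoc]
        congr 1
        rw [Nat.choose_mul (show q ≤ p + q - u by omega)]
        congr 2
        · omega
        · omega
      · rw [if_neg hup, Nat.choose_eq_zero_of_lt (show p + q - u < q by omega), mul_zero]
    · rw [Nat.choose_eq_zero_of_lt (not_le.1 hum)]
      simp
  rw [Finset.sum_congr rfl h2, ← Finset.sum_filter]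
  have h3 : (range (p + q + 1)).filter (fun u => u ≤ p) = range (p + 1) := by
    ext u
    simp only [Finset.mem_filter, Finset.mem_range]
    omega
  rw [h3]
  have h4 : y.choose p = ∑ u ∈ range (p + 1), m.choose u * (y - m).choose (p - u) := by
    rw [← vand]
    congr 1
    omega
  rw [h4, Finset.sum_mul]
  exact Finset.sum_congr rfl fun u _ => by ring

theorem sumN_of_zero {f : ℕ → ℕ} {a b : ℕ} (h1 : ∀ m, a ≤ m → f m = 0)
    (h2 : ∀ m, b ≤ m → f m = 0) : ∑ m ∈ range a, f m = ∑ m ∈ range b, f m := by
  have key : ∀ a b : ℕ, a ≤ b → (∀ m, a ≤ m → f m = 0) →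
      ∑ m ∈ range a, f m = ∑ m ∈ range b, f m := by
    intro a b hab h
    refine Finset.sum_subset (Finset.range_mono hab) fun m _ hm => ?_
    rw [Finset.mem_range, not_lt] at hm
    exact h m hm
  rcases le_total a b with h | h
  · exact key a b h h1
  · exact (key b a h h2).symm

/-- The product of two basis functions. -/
theorem prod_cc {p q i j : ℕ} (hi : i ≤ p) (hj : j ≤ q) (x : ℕ) :
    ∑ k ∈ range (x + 1), cc p q i j k * (x - k + (p + q)).choose (p + q) =
      if i ≤ x ∧ j ≤ x then (x - i + p).choose p * (x - j + q).choose q else 0 := by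
  by_cases hx : i ≤ x ∧ j ≤ x
  swap
  · rw [if_neg hx]
    refine Finset.sum_eq_zero fun k hk => ?_
    rw [Finset.mem_range] at hk
    rw [cc, if_neg (fun h => hx ⟨by omega, by omega⟩), zero_mul]
  rw [if_pos hx]
  set B : ℕ → ℕ := fun k => cc p q i j k * (x + (p + q) - k).choose (p + q) with hB
  have e1 : ∑ k ∈ range (x + 1), cc p q i j k * (x - k + (p + q)).choose (p + q) =
      ∑ k ∈ range (x + 1), B k := by
    refine Finset.sum_congr rfl fun k hk => ?_
    rw [Finset.mem_range] at hk
    simp only [hB]
    rw [show x - k + (p + q) = x + (p + q) - k by omega]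
  have z1 : ∀ k, x + 1 ≤ k → B k = 0 := by
    intro k hk
    simp only [hB]
    by_cases h0 : p + q = 0
    · have : i = 0 := by omega
      have h4 : cc p q i j k = 0 := by
        rw [cc, if_pos ⟨by omega, by omega⟩,
          Nat.choose_eq_zero_of_lt (show p + j - i < k - i by omega), zero_mul]
      rw [h4, zero_mul]
    · rw [Nat.choose_eq_zero_of_lt (show x + (p + q) - k < p + q by omega), mul_zero]
  have z2 : ∀ t, q + 1 ≤ t → B (i + t) = 0 := by
    intro t ht
    simp only [hB]
    have h4 : cc p q i j (i + t) = 0 := by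
      unfold cc
      split_ifs with h
      · rw [Nat.choose_eq_zero_of_lt (show q + i - j < i + t - j by omega), mul_zero]
      · rfl
    rw [h4, zero_mul]
  have e2 : ∑ k ∈ range (x + 1), B k = ∑ k ∈ range (i + ((q + 1) + (x + 1))), B k :=
    sumN_of_zero z1 (fun k hk => z1 k (by omega))
  have e3 : ∑ t ∈ range ((q + 1) + (x + 1)), B (i + t) = ∑ t ∈ range (q + 1), B (i + t) :=
    sumN_of_zero (fun t ht => z2 t (by omega)) z2
  have e4 : ∑ k ∈ range i, B k = 0 := by
    refine Finset.sum_eq_zero fun k hk => ?_
    rw [Finset.mem_range] at hk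
    simp only [hB]
    rw [cc, if_neg (fun h => by omega), zero_mul]
  rw [e1, e2, Finset.sum_range_add, e4, zero_add, e3]
  have h5 := prodId (p := p) (q := q) (m := p + j - i) (y := x + p - i) (by omega) (by omega)
  rw [show x + p - i - (p + j - i) + q = x - j + q by omega] at h5
  rw [show x - i + p = x + p - i by omega, h5]
  refine Finset.sum_congr rfl fun t ht => ?_
  rw [Finset.mem_range] at ht
  simp only [hB]
  rw [show x + (p + q) - (i + t) = x + p - i + q - t by omega]
  congr 1
  unfold cc
  by_cases hjt : j ≤ i + t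
  · rw [if_pos ⟨by omega, hjt⟩, show i + t - i = t by omega]
    congr 1
    rw [show p + q - (p + j - i) = q + i - j by omega]
    by_cases h6 : i + t - j ≤ q + i - j
    · rw [← Nat.choose_symm h6]
      congr 1
      omega
    · omega
  · rw [if_neg (fun h => hjt h.2)]
    rw [Nat.choose_eq_zero_of_lt (show p + q - (p + j - i) < q - t by omega), mul_zero]

theorem cc_zero {p q i j k : ℕ} (hi : i ≤ p) (hj : j ≤ q) (hk : p + q < k) :
    cc p q i j k = 0 := by
  unfold cc
  split_ifs with h
  · by_cases h1 : p + j - i < k - i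
    · rw [Nat.choose_eq_zero_of_lt h1, zero_mul]
    · omega
  · rfl

/-- The product polynomial. -/
noncomputable def prodP (p q r s : ℕ) (f g : ℕ[X]) : ℕ[X] :=
  ∑ k ∈ range (p + q + 1), C (∑ i ∈ range (r + 1), ∑ j ∈ range (s + 1),
    f.coeff i * g.coeff j * cc p q i j k) * X ^ k

theorem coeff_prodP {p q r s : ℕ} (hr : r ≤ p) (hs : s ≤ q) (f g : ℕ[X]) (k : ℕ) :
    (prodP p q r s f g).coeff k = ∑ i ∈ range (r + 1), ∑ j ∈ range (s + 1),
      f.coeff i * g.coeff j * cc p q i j k := by
  unfold prodP
  rw [finsetSum_coeff]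
  simp only [coeff_C_mul, coeff_X_pow, mul_ite, mul_one, mul_zero]
  rw [Finset.sum_ite_eq]
  split_ifs with h
  · rfl
  · symm
    rw [Finset.mem_range, not_lt] at h
    refine Finset.sum_eq_zero fun i hi => Finset.sum_eq_zero fun j hj => ?_
    rw [Finset.mem_range] at hi hj
    rw [cc_zero (by omega) (by omega) (by omega), mul_zero]

theorem ev_prodP {p q r s : ℕ} (hr : r ≤ p) (hs : s ≤ q) {f g : ℕ[X]}
    (hf : ∀ i, r < i → f.coeff i = 0) (hg : ∀ j, s < j → g.coeff j = 0) (x : ℕ) :
    ev (p + q) (prodP p q r s f g) x = ev p f x * ev q g x := by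
  have h1 : ∀ (p r : ℕ) (f : ℕ[X]), (∀ i, r < i → f.coeff i = 0) →
      ev p f x = ∑ i ∈ range (r + 1), if i ≤ x then f.coeff i * (x - i + p).choose p else 0 := by
    intro p r f hf
    unfold ev
    have e1 : ∑ k ∈ range (x + 1), f.coeff k * (x - k + p).choose p =
        ∑ k ∈ range (x + 1), if k ≤ x then f.coeff k * (x - k + p).choose p else 0 := by
      refine Finset.sum_congr rfl fun k hk => ?_
      rw [Finset.mem_range] at hk
      rw [if_pos (by omega)]
    rw [e1]
    refine sumN_of_zero (fun k hk => ?_) (fun k hk => ?_)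
    · rw [if_neg (by omega)]
    · rw [hf k (by omega)]
      simp
  rw [h1 p r f hf, h1 q s g hg, Finset.sum_mul_sum]
  unfold ev
  simp only [coeff_prodP hr hs, Finset.sum_mul]
  rw [Finset.sum_comm]
  refine Finset.sum_congr rfl fun i hi => ?_
  rw [Finset.sum_comm]
  refine Finset.sum_congr rfl fun j hj => ?_
  rw [Finset.mem_range] at hi hj
  have h2 := prod_cc (p := p) (q := q) (i := i) (j := j) (by omega) (by omega) x
  calc ∑ k ∈ range (x + 1), f.coeff i * g.coeff j * cc p q i j k *
      (x - k + (p + q)).choose (p + q)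
      = f.coeff i * g.coeff j * ∑ k ∈ range (x + 1), cc p q i j k *
        (x - k + (p + q)).choose (p + q) := by
        rw [Finset.mul_sum]
        exact Finset.sum_congr rfl fun k _ => by ring
    _ = _ := by
        rw [h2]
        by_cases h3 : i ≤ x
        · by_cases h4 : j ≤ x
          · rw [if_pos ⟨h3, h4⟩, if_pos h3, if_pos h4]
            ring
          · rw [if_neg (fun h => h4 h.2), if_neg h4]
            ring
        · rw [if_neg (fun h => h3 h.1), if_neg h3]
          ring

end Pool.UC86
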