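import Pool.Agent.UC86.Arr

set_option autoImplicit false

/-!
# UC86/Seq: ultra-log-concave sequences and the product of expansions
-/

open Finset Matrix
open scoped Nat

namespace Pool.UC86

/-- Coefficients of the product of two basis functions. -/
def cc (p q i j k : ℕ) : ℕ :=
  if i ≤ k ∧ j ≤ k then (p + j - i).choose (k - i) * (q + i - j).choose (k - j) else 0

/-- The coefficients of the product. -/
noncomputable def hh (p q r s : ℕ) (f g : ℕ → ℝ) (k : ℕ) : ℝ :=
  ∑ i ∈ range (r + 1), ∑ j ∈ range (s + 1), f i * g j * (cc p q i j k : ℝ)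

theorem iter_two {ι : Type*} [Fintype ι] [DecidableEq ι] {i j : ι} {u : ι → ℝ}
    (hu : ∀ (b : (ι → ℕ) → ℝ) (κ : ι → ℕ), Du u b κ = b (κ + Pi.single i 1) +
      b (κ + Pi.single j 1)) (k : ℕ) (a : (ι → ℕ) → ℝ) : ∀ κ : ι → ℕ,
    (Du u)^[k] a κ = ∑ m ∈ range (k + 1), (k.choose m : ℝ) *
      a (κ + (Pi.single i (k - m) + Pi.single j m)) := by
  induction k with
  | zero =>
    intro κ
    simp
  | succ k ih =>
    intro κ
    have e := Finset.sum_choose_succ_mul (R := ℝ)
      (fun x y : ℕ => a (κ + ((Pi.single i y : ι → ℕ) + (Pi.single j x : ι → ℕ)))) k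
    rw [Function.iterate_succ_apply', hu, ih, ih]
    refine Eq.trans ?_ e.symm
    congr 1
    · refine Finset.sum_congr rfl fun m hm => ?_
      rw [Finset.mem_range] at hm
      congr 2
      rw [show k + 1 - m = 1 + (k - m) by omega, Pi.single_add]
      abel
    · refine Finset.sum_congr rfl fun m hm => ?_
      congr 2
      rw [Pi.single_add]
      abel

/-- The two directions. -/
def u0 : Fin 4 → ℝ := ![1, 0, 1, 0]

/-- The two directions. -/
def v0 : Fin 4 → ℝ := ![0, 1, 0, 1]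

theorem Du_u0 (b : (Fin 4 → ℕ) → ℝ) (κ : Fin 4 → ℕ) :
    Du u0 b κ = b (κ + Pi.single 0 1) + b (κ + Pi.single 2 1) := by
  simp [Du, u0, Fin.sum_univ_four]

theorem Du_v0 (b : (Fin 4 → ℕ) → ℝ) (κ : Fin 4 → ℕ) :
    Du v0 b κ = b (κ + Pi.single 1 1) + b (κ + Pi.single 3 1) := by
  simp [Du, v0, Fin.sum_univ_four]

theorem TT_arr (p q δ : ℕ) (F G : ℕ → ℝ) (k l : ℕ) :
    TT u0 v0 (arr p q δ F G) k l = ∑ m ∈ range (k + 1), ∑ m' ∈ range (l + 1),
      (k.choose m : ℝ) * (l.choose m' : ℝ) * (((k - m + (l - m'))! : ℝ) * ((m + m' + δ)! : ℝ) *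
        rf p (k - m) * rf q (l - m') * G m * F m') := by
  rw [TT, iter_two Du_u0]
  refine Finset.sum_congr rfl fun m _ => ?_
  rw [iter_two Du_v0, Finset.mul_sum]
  refine Finset.sum_congr rfl fun m' _ => ?_
  rw [← mul_assoc]
  congr 1
  simp only [arr, Pi.add_apply, Pi.single_apply, Pi.zero_apply]
  simp only [Fin.isValue, ↓reduceIte, Fin.reduceEq, add_zero, zero_add]

theorem sum_range_of_zero {f : ℕ → ℝ} {a b : ℕ} (h1 : ∀ m, a ≤ m → f m = 0)
    (h2 : ∀ m, b ≤ m → f m = 0) : ∑ m ∈ range a, f m = ∑ m ∈ range b, f m := by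
  have key : ∀ a b : ℕ, a ≤ b → (∀ m, a ≤ m → f m = 0) →
      ∑ m ∈ range a, f m = ∑ m ∈ range b, f m := by
    intro a b hab h
    refine Finset.sum_subset (Finset.range_mono hab) fun m _ hm => ?_
    rw [Finset.mem_range, not_lt] at hm
    exact h m hm
  rcases le_total a b with h | h
  · exact key a b h h1
  · exact (key b a h h2).symm

/-- The identity behind each term. -/
theorem term_eq {p q r δ k l m m' : ℕ} (hr : r + δ = p) (hkl : k + l = q + r) (hm : m ≤ q)
    (hm' : m' ≤ r) :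
    (k.choose m : ℝ) * (l.choose m' : ℝ) * (((k - m + (l - m'))! : ℝ) * ((m + m' + δ)! : ℝ) *
        rf p (k - m) * rf q (l - m') * (m ! : ℝ) * (m' ! : ℝ)) =
      (k ! : ℝ) * (l ! : ℝ) * (cc p q (r - m') m k : ℝ) := by
  by_cases hmk : m ≤ k
  swap
  · rw [Nat.choose_eq_zero_of_lt (not_le.1 hmk), cc, if_neg (fun h => hmk h.2)]
    simp
  by_cases hml : m' ≤ l
  swap
  · rw [Nat.choose_eq_zero_of_lt (not_le.1 hml), cc]
    have : (q + (r - m') - m).choose (k - m) = 0 := Nat.choose_eq_zero_of_lt (by omega)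
    rw [this]
    simp
  by_cases hq : l - m' ≤ q
  swap
  · rw [rf_zero (not_le.1 hq), cc, if_neg (fun h => by omega)]
    simp
  by_cases hp : k - m ≤ p
  swap
  · rw [rf_zero (not_le.1 hp), cc]
    have : (p + m - (r - m')).choose (k - (r - m')) = 0 := Nat.choose_eq_zero_of_lt (by omega)
    rw [this]
    simp
  have h1 : r - m' ≤ k := by omega
  rw [cc, if_pos ⟨h1, hmk⟩]
  have e1 : p + m - (r - m') = m + m' + δ := by omega
  have e2 : q + (r - m') - m = k - m + (l - m') := by omega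
  have e3 : k - (r - m') = q - (l - m') := by omega
  rw [e1, e2, e3]
  have c1 : (k.choose m : ℝ) * (m ! : ℝ) * ((k - m)! : ℝ) = (k ! : ℝ) := by
    exact_mod_cast Nat.choose_mul_factorial_mul_factorial hmk
  have c2 : (l.choose m' : ℝ) * (m' ! : ℝ) * ((l - m')! : ℝ) = (l ! : ℝ) := by
    exact_mod_cast Nat.choose_mul_factorial_mul_factorial hml
  have c3 : ((k - m + (l - m')).choose (k - m) : ℝ) * ((k - m)! : ℝ) * ((l - m')! : ℝ) =
      ((k - m + (l - m'))! : ℝ) := by
    have := Nat.choose_mul_factorial_mul_factorial (Nat.le_add_right (k - m) (l - m'))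
    rw [Nat.add_sub_cancel_left] at this
    exact_mod_cast this
  have c4 : ((m + m' + δ).choose (q - (l - m')) : ℝ) * ((q - (l - m'))! : ℝ) *
      ((p - (k - m))! : ℝ) = ((m + m' + δ)! : ℝ) := by
    have := Nat.choose_mul_factorial_mul_factorial (show q - (l - m') ≤ m + m' + δ by omega)
    rw [show m + m' + δ - (q - (l - m')) = p - (k - m) by omega] at this
    exact_mod_cast this
  have r1 : rf p (k - m) = ((p - (k - m))! : ℝ)⁻¹ := by
    unfold rf
    rw [if_pos hp]
  have r2 : rf q (l - m') = ((q - (l - m'))! : ℝ)⁻¹ := by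
    unfold rf
    rw [if_pos hq]
  rw [r1, r2, ← c1, ← c2, ← c3, ← c4]
  have f1 : ((p - (k - m))! : ℝ) ≠ 0 := by positivity
  have f2 : ((q - (l - m'))! : ℝ) ≠ 0 := by positivity
  push_cast
  field_simp

/-- `F` and `G` from `f` and `g`. -/
noncomputable def Ff (r : ℕ) (f : ℕ → ℝ) (c : ℕ) : ℝ :=
  if c ≤ r then (c ! : ℝ) * f (r - c) else 0

/-- `F` and `G` from `f` and `g`. -/
noncomputable def Gg (s : ℕ) (g : ℕ → ℝ) (b : ℕ) : ℝ :=
  if b ≤ s then (b ! : ℝ) * g b else 0

theorem TT_hh {p q r s δ k l : ℕ} (f g : ℕ → ℝ) (hr : r + δ = p) (hs : s ≤ q)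
    (hkl : k + l = q + r) :
    TT u0 v0 (arr p q δ (Ff r f) (Gg s g)) k l = (k ! : ℝ) * (l ! : ℝ) * hh p q r s f g k := by
  set t : ℕ → ℕ → ℝ := fun m m' =>
      (k.choose m : ℝ) * (l.choose m' : ℝ) * (((k - m + (l - m'))! : ℝ) * ((m + m' + δ)! : ℝ) *
        rf p (k - m) * rf q (l - m') * Gg s g m * Ff r f m') with ht
  have h1 : ∀ m, k + 1 ≤ m → ∀ m', t m m' = 0 := by
    intro m hm m'
    simp only [ht]
    rw [Nat.choose_eq_zero_of_lt hm]
    simp
  have h2 : ∀ m m', l + 1 ≤ m' → t m m' = 0 := by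
    intro m m' hm
    simp only [ht]
    rw [Nat.choose_eq_zero_of_lt hm]
    simp
  have h3 : ∀ m, s + 1 ≤ m → ∀ m', t m m' = 0 := by
    intro m hm m'
    simp only [ht, Gg]
    rw [if_neg (by omega)]
    simp
  have h4 : ∀ m m', r + 1 ≤ m' → t m m' = 0 := by
    intro m m' hm
    simp only [ht, Ff]
    rw [if_neg (by omega)]
    simp
  have e1 : TT u0 v0 (arr p q δ (Ff r f) (Gg s g)) k l =
      ∑ m ∈ range (s + 1), ∑ m' ∈ range (r + 1), t m m' := by
    rw [TT_arr]
    rw [sum_range_of_zero (f := fun m => ∑ m' ∈ range (l + 1), t m m')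
      (fun m hm => Finset.sum_eq_zero fun m' _ => h1 m hm m')
      (fun m hm => Finset.sum_eq_zero fun m' _ => h3 m hm m')]
    exact Finset.sum_congr rfl fun m _ => sum_range_of_zero (h2 m) (h4 m)
  rw [e1, hh, Finset.sum_comm, ← Finset.sum_range_reflect, Finset.mul_sum]
  refine Finset.sum_congr rfl fun i hi => ?_
  rw [Finset.mem_range] at hi
  rw [Finset.mul_sum]
  refine Finset.sum_congr rfl fun j hj => ?_
  rw [Finset.mem_range] at hj
  have h5 := term_eq (k := k) (l := l) (m := j) (m' := r + 1 - 1 - i) hr hkl (by omega) (by omega)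
  simp only [ht, Gg, Ff]
  rw [if_pos (by omega), if_pos (by omega)]
  rw [show r - (r + 1 - 1 - i) = i by omega] at h5 ⊢
  linear_combination (f i * g j) * h5

end Pool.UC86
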