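import Pool.Agent.UC86.Box

set_option autoImplicit false

/-!
# UC86/Sym: the four letter array of the disjoint union
-/

open Finset Matrix Nat

namespace Pool.UC86

/-- The scalar inequality behind the hyperbolicity of the forms. -/
theorem core {n S P Q F G F1 G1 F2 G2 Pp Qp v0 v1 v2 v3 : ℝ} (hn : 2 ≤ n) (hS : S = P + Q)
    (hS2 : 2 ≤ S) (hP : 0 ≤ P) (hQ : 0 ≤ Q) (hF : 0 < F) (hG : 0 < G) (hPp : 0 ≤ Pp)
    (hQp : 0 ≤ Qp) (hPQ : Pp + Qp ≤ n) (hF2 : Pp * (F * F2) ≤ (Pp - 1) * F1 ^ 2)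
    (hG2 : Qp * (G * G2) ≤ (Qp - 1) * G1 ^ 2) (hPp0 : Pp = 0 → F1 = 0 ∧ F2 = 0)
    (hQp0 : Qp = 0 → G1 = 0 ∧ G2 = 0)
    (hl : n * (F * G) * (P * v0 + Q * v1) + S * (F * G1 * v2 + F1 * G * v3) = 0) :
    n * (n - 1) * (F * G) * (P * (P - 1) * v0 ^ 2 + 2 * (P * Q) * (v0 * v1) +
      Q * (Q - 1) * v1 ^ 2) +
      2 * ((n - 1) * (S - 1)) * ((P * v0 + Q * v1) * (F * G1 * v2 + F1 * G * v3)) +
      S * (S - 1) * (F * G2 * v2 ^ 2 + 2 * (F1 * G1) * (v2 * v3) + F2 * G * v3 ^ 2) ≤ 0 := by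
  have hFG : 0 < F * G := mul_pos hF hG
  set X : ℝ := F * G1 * v2 with hX
  set Y : ℝ := F1 * G * v3 with hY
  have b1 : F ^ 2 * (G * G2) * v2 ^ 2 ≤ X ^ 2 - X ^ 2 / Qp := by
    rcases hQp.eq_or_lt with h | h
    · obtain ⟨h1, h2⟩ := hQp0 h.symm
      rw [hX, h1, h2]
      simp
    · have h1 : G * G2 ≤ G1 ^ 2 - G1 ^ 2 / Qp := by
        rw [← sub_nonneg]
        have : G1 ^ 2 - G1 ^ 2 / Qp - G * G2 = ((Qp - 1) * G1 ^ 2 - Qp * (G * G2)) / Qp := by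
          field_simp
        rw [this]
        exact div_nonneg (by linarith) h.le
      have h2 := mul_le_mul_of_nonneg_left h1 (sq_nonneg (F * v2))
      calc F ^ 2 * (G * G2) * v2 ^ 2 = (F * v2) ^ 2 * (G * G2) := by ring
        _ ≤ (F * v2) ^ 2 * (G1 ^ 2 - G1 ^ 2 / Qp) := h2
        _ = X ^ 2 - X ^ 2 / Qp := by rw [hX]; ring
  have b2 : G ^ 2 * (F * F2) * v3 ^ 2 ≤ Y ^ 2 - Y ^ 2 / Pp := by
    rcases hPp.eq_or_lt with h | h
    · obtain ⟨h1, h2⟩ := hPp0 h.symm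
      rw [hY, h1, h2]
      simp
    · have h1 : F * F2 ≤ F1 ^ 2 - F1 ^ 2 / Pp := by
        rw [← sub_nonneg]
        have : F1 ^ 2 - F1 ^ 2 / Pp - F * F2 = ((Pp - 1) * F1 ^ 2 - Pp * (F * F2)) / Pp := by
          field_simp
        rw [this]
        exact div_nonneg (by linarith) h.le
      have h2 := mul_le_mul_of_nonneg_left h1 (sq_nonneg (G * v3))
      calc G ^ 2 * (F * F2) * v3 ^ 2 = (G * v3) ^ 2 * (F * F2) := by ring
        _ ≤ (G * v3) ^ 2 * (F1 ^ 2 - F1 ^ 2 / Pp) := h2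
        _ = Y ^ 2 - Y ^ 2 / Pp := by rw [hY]; ring
  have hn0 : 0 < n := by linarith
  have b3 : (X + Y) ^ 2 / n ≤ X ^ 2 / Qp + Y ^ 2 / Pp := by
    rw [div_le_iff₀ hn0]
    rcases hQp.eq_or_lt with h | h
    · obtain ⟨h1, -⟩ := hQp0 h.symm
      have hX0 : X = 0 := by rw [hX, h1]; ring
      rw [hX0]
      rcases hPp.eq_or_lt with h' | h'
      · obtain ⟨h3, -⟩ := hPp0 h'.symm
        have hY0 : Y = 0 := by rw [hY, h3]; ring
        rw [hY0]
        simp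
      · have h4 : Y ^ 2 / Pp * n = Y ^ 2 * (n / Pp) := by ring
        have h5 : 1 ≤ n / Pp := by rw [le_div_iff₀ h']; linarith
        have h6 := mul_le_mul_of_nonneg_left h5 (sq_nonneg Y)
        simp only [zero_add, ne_eq, OfNat.ofNat_ne_zero, not_false_eq_true, zero_pow, zero_div]
        rw [h4]
        linarith
    · rcases hPp.eq_or_lt with h' | h'
      · obtain ⟨h3, -⟩ := hPp0 h'.symm
        have hY0 : Y = 0 := by rw [hY, h3]; ring
        rw [hY0]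
        have h4 : X ^ 2 / Qp * n = X ^ 2 * (n / Qp) := by ring
        have h5 : 1 ≤ n / Qp := by rw [le_div_iff₀ h]; linarith
        have h6 := mul_le_mul_of_nonneg_left h5 (sq_nonneg X)
        simp only [add_zero, ne_eq, OfNat.ofNat_ne_zero, not_false_eq_true, zero_pow, zero_div]
        rw [h4]
        linarith
      · have h4 : (X + Y) ^ 2 ≤ (X ^ 2 / Qp + Y ^ 2 / Pp) * (Pp + Qp) := by
          have h5 : (X ^ 2 / Qp + Y ^ 2 / Pp) * (Pp + Qp) - (X + Y) ^ 2 =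
              (Pp * X - Qp * Y) ^ 2 / (Pp * Qp) := by
            field_simp
            ring
          have h6 : 0 ≤ (Pp * X - Qp * Y) ^ 2 / (Pp * Qp) := by positivity
          linarith
        have h7 : 0 ≤ X ^ 2 / Qp + Y ^ 2 / Pp := by positivity
        exact h4.trans (mul_le_mul_of_nonneg_left hPQ h7)
  have hS0 : 0 < S := by linarith
  set w : ℝ := F * G * (P * v0 + Q * v1) with hw
  have hl' : n * w + S * (X + Y) = 0 := by rw [hw]; linarith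
  have b4 : w ^ 2 / S ≤ (F * G) ^ 2 * (P * v0 ^ 2 + Q * v1 ^ 2) := by
    rw [div_le_iff₀ hS0]
    have h1 : (F * G) ^ 2 * (P * v0 ^ 2 + Q * v1 ^ 2) * S - w ^ 2 =
        (F * G) ^ 2 * (P * Q * (v0 - v1) ^ 2) := by
      rw [hw, hS]
      ring
    have h2 : 0 ≤ (F * G) ^ 2 * (P * Q * (v0 - v1) ^ 2) :=
      mul_nonneg (sq_nonneg _) (mul_nonneg (mul_nonneg hP hQ) (sq_nonneg _))
    linarith
  -- multiply by `F * G`
  refine le_of_mul_le_mul_left ?_ hFG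
  rw [mul_zero]
  have c1 : 0 ≤ n * (n - 1) := mul_nonneg hn0.le (by linarith)
  have c2 : 0 ≤ S * (S - 1) := mul_nonneg hS0.le (by linarith)
  have d1 := mul_le_mul_of_nonneg_left b4 c1
  have d2 := mul_le_mul_of_nonneg_left (add_le_add (add_le_add b1 b2) b3) c2
  have e1 : n * (n - 1) * (w ^ 2 - w ^ 2 / S) + 2 * ((n - 1) * (S - 1)) * (w * (X + Y)) +
      S * (S - 1) * ((X + Y) ^ 2 - (X + Y) ^ 2 / n) = 0 := by
    have hw' : w = - (S * (X + Y)) / n := by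
      field_simp
      linarith
    rw [hw']
    field_simp
    ring
  have e2 : F * G * (n * (n - 1) * (F * G) * (P * (P - 1) * v0 ^ 2 + 2 * (P * Q) * (v0 * v1) +
      Q * (Q - 1) * v1 ^ 2) +
      2 * ((n - 1) * (S - 1)) * ((P * v0 + Q * v1) * (X + Y)) +
      S * (S - 1) * (F * G2 * v2 ^ 2 + 2 * (F1 * G1) * (v2 * v3) + F2 * G * v3 ^ 2)) =
      n * (n - 1) * (w ^ 2 - (F * G) ^ 2 * (P * v0 ^ 2 + Q * v1 ^ 2)) +
      2 * ((n - 1) * (S - 1)) * (w * (X + Y)) +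
      S * (S - 1) * (F ^ 2 * (G * G2) * v2 ^ 2 + 2 * (X * Y) + G ^ 2 * (F * F2) * v3 ^ 2) := by
    rw [hw, hX, hY]
    ring
  rw [e2]
  nlinarith [d1, d2, e1]

end Pool.UC86
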