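import Mathlib

set_option autoImplicit false

/-!
# UC86/Tri: the local-global lemma for hyperbolic forms
-/

open Finset Matrix

namespace Pool.UC86

variable {ι : Type*} [Fintype ι]

/-- The reverse Cauchy-Schwarz (Alexandrov-Fenchel) inequality for the symmetric form `M`. -/
def AF (M : Matrix ι ι ℝ) : Prop :=
  ∀ x y : ι → ℝ, (∀ i, 0 ≤ x i) → (x ⬝ᵥ M *ᵥ x) * (y ⬝ᵥ M *ᵥ y) ≤ (x ⬝ᵥ M *ᵥ y) ^ 2

theorem dot_symm {M : Matrix ι ι ℝ} (hM : M.IsSymm) (x y : ι → ℝ) :
    x ⬝ᵥ M *ᵥ y = y ⬝ᵥ M *ᵥ x := by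
  rw [dotProduct_mulVec, ← mulVec_transpose, hM.eq, dotProduct_comm]

/-- A symmetric form that is nonpositive on a hyperplane satisfies reverse Cauchy-Schwarz at every
vector of nonnegative square. -/
theorem rcs {M : Matrix ι ι ℝ} (hM : M.IsSymm) (ℓ : (ι → ℝ) →ₗ[ℝ] ℝ)
    (h : ∀ v, ℓ v = 0 → v ⬝ᵥ M *ᵥ v ≤ 0) (x y : ι → ℝ) (hx : 0 ≤ x ⬝ᵥ M *ᵥ x) :
    (x ⬝ᵥ M *ᵥ x) * (y ⬝ᵥ M *ᵥ y) ≤ (x ⬝ᵥ M *ᵥ y) ^ 2 := by
  rcases hx.eq_or_lt with h0 | h0
  · rw [← h0, zero_mul]; positivity
  have hl : ℓ x ≠ 0 := fun h1 => absurd (h x h1) (not_le.2 h0)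
  set t : ℝ := ℓ y / ℓ x with ht
  have h1 := h (y - t • x) (by
    rw [map_sub, map_smul, smul_eq_mul, ht, div_mul_cancel₀ _ hl, sub_self])
  have h2 : (y - t • x) ⬝ᵥ M *ᵥ (y - t • x) =
      y ⬝ᵥ M *ᵥ y - 2 * t * (x ⬝ᵥ M *ᵥ y) + t ^ 2 * (x ⬝ᵥ M *ᵥ x) := by
    rw [mulVec_sub, mulVec_smul, sub_dotProduct, dotProduct_sub, dotProduct_sub, smul_dotProduct,
      smul_dotProduct, dotProduct_smul, dotProduct_smul, dot_symm hM y x]
    simp only [smul_eq_mul]
    ring
  rw [h2] at h1
  nlinarith [sq_nonneg (t * (x ⬝ᵥ M *ᵥ x) - (x ⬝ᵥ M *ᵥ y)), mul_le_mul_of_nonneg_left h1 h0.le]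

/-- Hyperplane test implies `AF` for matrices with nonnegative entries. -/
theorem AF_of {M : Matrix ι ι ℝ} (hM : M.IsSymm) (h0 : ∀ i j, 0 ≤ M i j)
    (ℓ : (ι → ℝ) →ₗ[ℝ] ℝ) (h : ∀ v, ℓ v = 0 → v ⬝ᵥ M *ᵥ v ≤ 0) : AF M := by
  intro x y hx
  refine rcs hM ℓ h x y ?_
  refine Finset.sum_nonneg fun i _ => mul_nonneg (hx i) (Finset.sum_nonneg fun j _ =>
    mul_nonneg (h0 i j) (hx j))

/-- The contraction of the trilinear form `c` with the vector `u`. -/
noncomputable def con (c : ι → Matrix ι ι ℝ) (u : ι → ℝ) : Matrix ι ι ℝ := ∑ k, u k • c k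

theorem con_apply (c : ι → Matrix ι ι ℝ) (u : ι → ℝ) (i j : ι) :
    con c u i j = ∑ k, u k * c k i j := by
  simp [con, Matrix.sum_apply]

theorem con_quad (c : ι → Matrix ι ι ℝ) (u : ι → ℝ) (v w : ι → ℝ) :
    v ⬝ᵥ con c u *ᵥ w = ∑ i, u i * (v ⬝ᵥ (c i) *ᵥ w) := by
  rw [con, Matrix.sum_mulVec, dotProduct_sum]
  refine Finset.sum_congr rfl fun i _ => ?_
  rw [smul_mulVec, dotProduct_smul, smul_eq_mul]

section

variable {c : ι → Matrix ι ι ℝ} {u : ι → ℝ}

theorem con_symm (hs2 : ∀ i j k, c i j k = c i k j) : (con c u).IsSymm := by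
  ext i j
  simp only [transpose_apply, con_apply]
  exact Finset.sum_congr rfl fun k _ => by rw [hs2]

theorem con_mulVec (hs1 : ∀ i j k, c i j k = c j i k) (v : ι → ℝ) (i : ι) :
    (con c u *ᵥ v) i = u ⬝ᵥ (c i) *ᵥ v := by
  simp only [mulVec, dotProduct, con_apply, Finset.sum_mul, Finset.mul_sum]
  rw [Finset.sum_comm]
  refine Finset.sum_congr rfl fun k _ => Finset.sum_congr rfl fun j _ => ?_
  rw [hs1 k i j]
  ring

/-- **Local-global lemma**: a symmetric trilinear form with nonnegative entries, any two active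
indices of which are joined, all whose basis contractions are hyperbolic, has hyperbolic
contractions with all positive vectors. -/
theorem tri (hs1 : ∀ i j k, c i j k = c j i k) (hs2 : ∀ i j k, c i j k = c i k j)
    (h0 : ∀ i j k, 0 ≤ c i j k) (hu : ∀ i, 0 < u i)
    (hconn : ∀ i j, i ≠ j → (∃ k l, 0 < c i k l) → (∃ k l, 0 < c j k l) → ∃ k, 0 < c i j k)
    (hAF : ∀ i, AF (c i)) : AF (con c u) := by
  classical
  set M := con c u with hMdef
  have hM : M.IsSymm := con_symm hs2
  have hM0 : ∀ i j, 0 ≤ M i j := fun i j => by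
    rw [hMdef, con_apply]
    exact Finset.sum_nonneg fun k _ => mul_nonneg (hu k).le (h0 _ _ _)
  -- active indices
  set m : ι → ℝ := M *ᵥ u with hm
  have hm0 : ∀ i, 0 ≤ m i := fun i => Finset.sum_nonneg fun j _ => mul_nonneg (hM0 i j) (hu j).le
  have hmi : ∀ i, m i = ∑ j, ∑ k, u j * (c i j k * u k) := fun i => by
    rw [hm, hMdef, con_mulVec hs1]
    simp only [mulVec, dotProduct, Finset.mul_sum]
  have hinact : ∀ i, ¬ 0 < m i → ∀ j k, c i j k = 0 := by
    intro i hi j k
    have h1 : m i = 0 := le_antisymm (not_lt.1 hi) (hm0 i)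
    rw [hmi, Finset.sum_eq_zero_iff_of_nonneg (fun j _ => Finset.sum_nonneg fun k _ =>
      mul_nonneg (hu j).le (mul_nonneg (h0 _ _ _) (hu k).le))] at h1
    have h2 := h1 j (Finset.mem_univ _)
    rw [Finset.sum_eq_zero_iff_of_nonneg (fun k _ =>
      mul_nonneg (hu j).le (mul_nonneg (h0 _ _ _) (hu k).le))] at h2
    have h3 := h2 k (Finset.mem_univ _)
    rcases mul_eq_zero.1 h3 with h | h
    · exact absurd h (hu j).ne'
    · rcases mul_eq_zero.1 h with h | h
      · exact h
      · exact absurd h (hu k).ne'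
  have hact : ∀ i, 0 < m i → ∃ j k, 0 < c i j k := by
    intro i hi
    by_contra hcon
    push Not at hcon
    have : m i ≤ 0 := by
      rw [hmi]
      exact Finset.sum_nonpos fun j _ => Finset.sum_nonpos fun k _ =>
        mul_nonpos_of_nonneg_of_nonpos (hu j).le
          (mul_nonpos_of_nonpos_of_nonneg (hcon j k) (hu k).le)
    linarith
  have hMin : ∀ i j, ¬ 0 < m i → M i j = 0 := by
    intro i j hi
    rw [hMdef, con_apply]
    refine Finset.sum_eq_zero fun k _ => ?_
    rw [hs1 k i j, hinact i hi, mul_zero]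
  have hMin' : ∀ i j, ¬ 0 < m j → M i j = 0 := by
    intro i j hj
    rw [← hM.apply]
    exact hMin j i hj
  have hMpos : ∀ i j, i ≠ j → 0 < m i → 0 < m j → 0 < M i j := by
    intro i j hij hi hj
    obtain ⟨k, hk⟩ := hconn i j hij (hact i hi) (hact j hj)
    rw [hMdef, con_apply]
    refine Finset.sum_pos' (fun k _ => mul_nonneg (hu k).le (h0 _ _ _)) ⟨k, Finset.mem_univ _, ?_⟩
    have : c k i j = c i j k := by rw [hs1 k i j, hs2 i k j]
    rw [this]
    exact mul_pos (hu k) hk
  -- weights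
  set D : ι → ℝ := fun i => if 0 < m i then m i / u i else 1 with hD
  have hDpos : ∀ i, 0 < D i := by
    intro i
    simp only [hD]
    split_ifs with h
    · exact div_pos h (hu i)
    · exact one_pos
  set u' : ι → ℝ := fun i => if 0 < m i then u i else 0 with hu'
  let ip : (ι → ℝ) → (ι → ℝ) → ℝ := fun x y => ∑ i, D i * x i * y i
  let A : (ι → ℝ) →ₗ[ℝ] (ι → ℝ) :=
    { toFun := fun v i => (M *ᵥ v) i / D i
      map_add' := fun x y => by
        ext i
        rw [mulVec_add]
        simp [add_div]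
      map_smul' := fun r x => by
        ext i
        rw [mulVec_smul]
        simp [mul_div_assoc] }
  have hA : ∀ v i, A v i = (M *ᵥ v) i / D i := fun v i => rfl
  have ip_symm : ∀ x y, ip x y = ip y x := fun x y =>
    Finset.sum_congr rfl fun i _ => by ring
  have ip_sub_left : ∀ x y z, ip (x - y) z = ip x z - ip y z := fun x y z => by
    simp only [ip, Pi.sub_apply, ← Finset.sum_sub_distrib]
    exact Finset.sum_congr rfl fun i _ => by ring
  have ip_sub_right : ∀ x y z, ip z (x - y) = ip z x - ip z y := fun x y z => by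
    rw [ip_symm, ip_sub_left, ip_symm x, ip_symm y]
  have ipA : ∀ x y, ip x (A y) = x ⬝ᵥ M *ᵥ y := by
    intro x y
    simp only [ip, hA, dotProduct]
    refine Finset.sum_congr rfl fun i _ => ?_
    have := (hDpos i).ne'
    field_simp
  have hMv : ∀ v i, ¬ 0 < m i → (M *ᵥ v) i = 0 := by
    intro v i hi
    simp only [mulVec, dotProduct]
    exact Finset.sum_eq_zero fun j _ => by rw [hMin i j hi, zero_mul]
  have hMu' : M *ᵥ u' = m := by
    ext i
    simp only [hm, mulVec, dotProduct]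
    refine Finset.sum_congr rfl fun j _ => ?_
    by_cases hj : 0 < m j
    · simp only [hu', if_pos hj]
    · rw [hMin' i j hj, zero_mul, zero_mul]
  have hAu' : A u' = u' := by
    ext i
    rw [hA, hMu']
    by_cases hi : 0 < m i
    · simp only [hD, hu', if_pos hi]
      have := (hu i).ne'
      field_simp
    · have : m i = 0 := le_antisymm (not_lt.1 hi) (hm0 i)
      simp only [hu', if_neg hi, this, zero_div]
  -- (1)
  have key1 : ∀ x : ι → ℝ, ip x x - x ⬝ᵥ M *ᵥ x = (∑ i, if 0 < m i then 0 else x i ^ 2) +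
      ∑ i, ∑ j, M i j * u i * u j * (x i / u i - x j / u j) ^ 2 / 2 := by
    intro x
    have e1 : ∀ i j, M i j * u i * u j * (x i / u i - x j / u j) ^ 2 / 2 =
        (M i j * u j) * (x i ^ 2 / u i) / 2 + (M i j * u i) * (x j ^ 2 / u j) / 2 -
        x i * (M i j * x j) := by
      intro i j
      have h1 := (hu i).ne'
      have h2 := (hu j).ne'
      field_simp
      ring
    simp only [e1, Finset.sum_sub_distrib, Finset.sum_add_distrib]
    have e2 : ∑ i, ∑ j, (M i j * u j) * (x i ^ 2 / u i) / 2 = ∑ i, m i * (x i ^ 2 / u i) / 2 := by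
      refine Finset.sum_congr rfl fun i _ => ?_
      rw [← Finset.sum_div, ← Finset.sum_mul]
      rfl
    have e3 : ∑ i, ∑ j, (M i j * u i) * (x j ^ 2 / u j) / 2 = ∑ i, m i * (x i ^ 2 / u i) / 2 := by
      rw [Finset.sum_comm]
      refine Finset.sum_congr rfl fun i _ => ?_
      rw [← Finset.sum_div, ← Finset.sum_mul]
      congr 2
      simp only [hm, mulVec, dotProduct]
      exact Finset.sum_congr rfl fun j _ => by rw [hM.apply]
    have e4 : ∑ i, ∑ j, x i * (M i j * x j) = x ⬝ᵥ M *ᵥ x := by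
      simp only [mulVec, dotProduct, Finset.mul_sum]
    rw [e2, e3, e4]
    have e5 : ip x x = (∑ i, if 0 < m i then 0 else x i ^ 2) +
        (∑ i, m i * (x i ^ 2 / u i) / 2 + ∑ i, m i * (x i ^ 2 / u i) / 2) := by
      rw [← Finset.sum_add_distrib, ← Finset.sum_add_distrib]
      refine Finset.sum_congr rfl fun i _ => ?_
      by_cases hi : 0 < m i
      · simp only [hD, if_pos hi]
        have := (hu i).ne'
        field_simp
        ring
      · have h0' : m i = 0 := le_antisymm (not_lt.1 hi) (hm0 i)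
        simp only [hD, if_neg hi]
        rw [h0']
        ring
    rw [e5]
    ring
  have t1 : ∀ (x : ι → ℝ) i, 0 ≤ (if 0 < m i then 0 else x i ^ 2) := fun x i => by
    split_ifs
    · exact le_refl _
    · positivity
  have t2 : ∀ (x : ι → ℝ) i j, 0 ≤ M i j * u i * u j * (x i / u i - x j / u j) ^ 2 / 2 :=
    fun x i j => by
      have := mul_nonneg (mul_nonneg (mul_nonneg (hM0 i j) (hu i).le) (hu j).le)
        (sq_nonneg (x i / u i - x j / u j))
      linarith
  have psd : ∀ x : ι → ℝ, 0 ≤ ip x x - x ⬝ᵥ M *ᵥ x := by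
    intro x
    rw [key1]
    exact add_nonneg (Finset.sum_nonneg fun i _ => t1 x i)
      (Finset.sum_nonneg fun i _ => Finset.sum_nonneg fun j _ => t2 x i j)
  have psd_eq : ∀ x : ι → ℝ, ip x x - x ⬝ᵥ M *ᵥ x = 0 → (∀ i, ¬ 0 < m i → x i = 0) ∧
      ∀ i j, 0 < m i → 0 < m j → x i / u i = x j / u j := by
    intro x hx
    rw [key1] at hx
    have hn1 : 0 ≤ ∑ i, (if 0 < m i then 0 else x i ^ 2) := Finset.sum_nonneg fun i _ => t1 x i
    have hn2 : 0 ≤ ∑ i, ∑ j, M i j * u i * u j * (x i / u i - x j / u j) ^ 2 / 2 :=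
      Finset.sum_nonneg fun i _ => Finset.sum_nonneg fun j _ => t2 x i j
    have hz1 : ∑ i, (if 0 < m i then 0 else x i ^ 2) = 0 := by linarith
    have hz2 : ∑ i, ∑ j, M i j * u i * u j * (x i / u i - x j / u j) ^ 2 / 2 = 0 := by linarith
    constructor
    · intro i hi
      rw [Finset.sum_eq_zero_iff_of_nonneg (fun i _ => t1 x i)] at hz1
      have := hz1 i (Finset.mem_univ _)
      rw [if_neg hi] at this
      exact pow_eq_zero_iff (two_ne_zero) |>.1 this
    · intro i j hi hj
      by_cases hij : i = j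
      · rw [hij]
      rw [Finset.sum_eq_zero_iff_of_nonneg (fun i _ => Finset.sum_nonneg fun j _ => t2 x i j)]
        at hz2
      have h1 := hz2 i (Finset.mem_univ _)
      rw [Finset.sum_eq_zero_iff_of_nonneg (fun j _ => t2 x i j)] at h1
      have h2 := h1 j (Finset.mem_univ _)
      have h3 : 0 < M i j * u i * u j := mul_pos (mul_pos (hMpos i j hij hi hj) (hu i)) (hu j)
      have h4 : (x i / u i - x j / u j) ^ 2 = 0 := by
        have h5 : M i j * u i * u j * (x i / u i - x j / u j) ^ 2 = 0 := by linarith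
        rcases mul_eq_zero.1 h5 with h | h
        · exact absurd h h3.ne'
        · exact h
      have h6 := pow_eq_zero_iff (two_ne_zero) |>.1 h4
      linarith
  -- (2)
  have key2 : ∀ z : ι → ℝ, z ⬝ᵥ M *ᵥ z ≤ ip (A z) (A z) := by
    intro z
    rw [hMdef, con_quad]
    refine Finset.sum_le_sum fun i _ => ?_
    by_cases hi : 0 < m i
    · have h1 := hAF i u z (fun j => (hu j).le)
      have e1 : u ⬝ᵥ (c i) *ᵥ u = m i := by rw [← con_mulVec hs1 u i]
      have e2 : u ⬝ᵥ (c i) *ᵥ z = (M *ᵥ z) i := by rw [← con_mulVec hs1 z i]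
      rw [e1, e2] at h1
      have h2 : D i * A z i * A z i = u i * ((M *ᵥ z) i ^ 2 / m i) := by
        rw [hA]
        simp only [hD, if_pos hi]
        have := (hu i).ne'
        have := hi.ne'
        field_simp
      rw [h2]
      refine mul_le_mul_of_nonneg_left ?_ (hu i).le
      rw [le_div_iff₀ hi]
      linarith
    · have h1 : z ⬝ᵥ c i *ᵥ z = 0 := by
        simp only [mulVec, dotProduct, hinact i hi, zero_mul, Finset.sum_const_zero, mul_zero]
      rw [h1, mul_zero, hA, hMv z i hi]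
      simp
  -- the hyperplane
  let ℓ : (ι → ℝ) →ₗ[ℝ] ℝ :=
    { toFun := fun v => ip u' v
      map_add' := fun x y => by
        simp only [ip, Pi.add_apply, mul_add, Finset.sum_add_distrib]
      map_smul' := fun r x => by
        simp only [ip, Pi.smul_apply, smul_eq_mul, Finset.mul_sum, RingHom.id_apply]
        exact Finset.sum_congr rfl fun i _ => by ring }
  have hℓ : ∀ v, ℓ v = ip u' v := fun v => rfl
  let B : (ι → ℝ) →ₗ[ℝ] (ι → ℝ) := LinearMap.id - A
  have hB : ∀ v, B v = v - A v := fun v => rfl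
  have hBW : ∀ v, ℓ (B v) = 0 := by
    intro v
    rw [hℓ, hB, ip_sub_right, ipA, dot_symm hM, ← ipA v u', hAu', ip_symm u' v, sub_self]
  have hmap : ∀ v ∈ LinearMap.ker ℓ, B v ∈ LinearMap.ker ℓ := fun v _ => hBW v
  have hinj : Function.Injective (B.restrict hmap) := by
    rw [injective_iff_map_eq_zero]
    rintro ⟨v, hv⟩ h
    have hBv : B v = 0 := congrArg Subtype.val h
    have hvA : A v = v := by
      rw [hB, sub_eq_zero] at hBv
      exact hBv.symm
    have h1 : ip v v - v ⬝ᵥ M *ᵥ v = 0 := by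
      rw [← ipA, hvA, sub_self]
    obtain ⟨h2, h3⟩ := psd_eq v h1
    have hvl : ip u' v = 0 := hv
    have hv0 : v = 0 := by
      ext i
      by_cases hi : 0 < m i
      · have h4 : ∀ j, u' j = 0 ∨ v j = v i / u i * u' j := by
          intro j
          by_cases hj : 0 < m j
          · right
            have := h3 i j hi hj
            simp only [hu', if_pos hj]
            rw [this, div_mul_cancel₀ _ (hu j).ne']
          · left
            simp only [hu', if_neg hj]
        have h5 : ip u' v = v i / u i * ip u' u' := by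
          simp only [ip, Finset.mul_sum]
          refine Finset.sum_congr rfl fun j _ => ?_
          rcases h4 j with h | h
          · rw [h]; ring
          · rw [h]; ring
        have h6 : 0 < ip u' u' := by
          refine Finset.sum_pos' (fun j _ => ?_) ⟨i, Finset.mem_univ _, ?_⟩
          · have := mul_nonneg (hDpos j).le (mul_self_nonneg (u' j))
            linarith
          · have h7 : u' i = u i := by simp only [hu', if_pos hi]
            rw [h7]
            exact mul_pos (mul_pos (hDpos i) (hu i)) (hu i)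
        rw [hvl] at h5
        rcases mul_eq_zero.1 h5.symm with h | h
        · rcases div_eq_zero_iff.1 h with h | h
          · exact h
          · exact absurd h (hu i).ne'
        · exact absurd h h6.ne'
      · exact h2 i hi
    exact Subtype.ext hv0
  have hsurj : Function.Surjective (B.restrict hmap) := LinearMap.injective_iff_surjective.1 hinj
  refine AF_of hM hM0 ℓ ?_
  intro v hv
  obtain ⟨⟨z, hz⟩, hBz⟩ := hsurj ⟨v, hv⟩
  have hBz' : B z = v := congrArg Subtype.val hBz
  have hzA : A z = z - v := by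
    rw [← hBz', hB]
    abel
  have e1 : z ⬝ᵥ M *ᵥ z = ip z z - ip z v := by rw [← ipA, hzA, ip_sub_right]
  have e2 : v ⬝ᵥ M *ᵥ z = ip v z - ip v v := by rw [← ipA, hzA, ip_sub_right]
  have k2 := key2 z
  rw [hzA, ip_sub_left, ip_sub_right, ip_sub_right, e1, ip_symm v z] at k2
  have k1 := psd (z - v)
  have e3 : (z - v) ⬝ᵥ M *ᵥ (z - v) = z ⬝ᵥ M *ᵥ z - 2 * (v ⬝ᵥ M *ᵥ z) + v ⬝ᵥ M *ᵥ v := by
    rw [mulVec_sub, sub_dotProduct, dotProduct_sub, dotProduct_sub, dot_symm hM z v]
    ring
  rw [e3, e1, e2, ip_sub_left, ip_sub_right, ip_sub_right, ip_symm v z] at k1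
  linarith

end

end Pool.UC86
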